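import Pool.Agent.L0h21.RW.PerDef

set_option autoImplicit false

/-! # Isolated singularities of corank at most two: definitions -/

namespace Pool.Agent.L0h21.CK

open MvPolynomial

/-- The polynomial has no terms of degree `< k`. -/
def OrdP {V R : Type} [CommSemiring R] (k : ℕ) (q : MvPolynomial V R) : Prop :=
  ∀ d : V →₀ ℕ, d.degree < k → coeff d q = 0

/-- The power series has no terms of degree `< k`. -/
def OrdS {V : Type} (k : ℕ) (h : MvPowerSeries V ℂ) : Prop :=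
  ∀ d : V →₀ ℕ, d.degree < k → MvPowerSeries.coeff d h = 0

/-- A family of local period functionals of the formal power series `g` with the exponent `e0`. -/
structure IsFP {V : Type} (g : MvPowerSeries V ℂ) (e0 : ℂ)
    (S : Set (ℕ → MvPowerSeries V ℂ →ₗ[ℂ] ℂ)) : Prop where
  e1 : ∀ c ∈ S, ∀ h, c 0 (g * h) = 0
  e2 : ∀ c ∈ S, ∀ (m : ℕ) h, c (m + 1) (g * h) = ((m : ℂ) - e0) * c m h
  d1 : ∀ c ∈ S, ∀ i h, c 0 (MvPowerSeries.pderiv ℂ i g * h) = 0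
  d2 : ∀ c ∈ S, ∀ i, ∃ c' ∈ S, ∀ (m : ℕ) h,
    c m (MvPowerSeries.pderiv ℂ i h) - c (m + 1) (MvPowerSeries.pderiv ℂ i g * h) = c' m h
  mu : ∀ c ∈ S, ∀ a, ∃ c' ∈ S, ∀ (m : ℕ) h, c m (a * h) = c' m h
  add : ∀ c ∈ S, ∀ c' ∈ S, c + c' ∈ S
  loc : ∃ A : ℕ, ∀ c ∈ S, ∀ (m : ℕ) h, OrdS (A * (m + 1)) h → c m h = 0

/-- `e0` is the leading exponent of a local period of the formal power series `g`. -/
def FP {V : Type} (g : MvPowerSeries V ℂ) (e0 : ℂ) : Prop :=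
  ∃ S, IsFP g e0 S ∧ ∃ c ∈ S, c 0 1 ≠ 0

end Pool.Agent.L0h21.CK
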