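import Pool.Agent.L0h21.RW.FW

set_option autoImplicit false

/-! # Formulas over polynomials with good points or isolated critical points of corank at most two -/

namespace Pool.Agent.L0h21.CK

open MvPolynomial Pool.Agent.N138.SU Pool.Agent.L0h21.RW

/-- `P` is a critical point of `F`, it is isolated (for the Zariski topology: `U ≠ 0` is a
neighbourhood of `P`) among the critical points on the fibre of `F` through `P`, and the corank of
the Hessian matrix of `F` at `P` is at most two. -/
def CorankTwoPoint {V : Type} [Fintype V] (F : MvPolynomial V ℂ) (P : V → ℂ) : Prop :=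
  2 ≤ Fintype.card V ∧ (∀ v, eval P (pderiv v F) = 0) ∧
  Fintype.card V ≤ (Matrix.of fun u v => eval P (pderiv u (pderiv v F))).rank + 2 ∧
  ∃ U : MvPolynomial V ℂ, eval P U ≠ 0 ∧ ∀ x, eval x F = eval P F →
    (∀ v, eval x (pderiv v F) = 0) → x = P ∨ eval x U = 0

/-- The smallest class of polynomials `F`, in any finite set of variables `V`, with the following
properties. -/
inductive FX : (V : Type) → MvPolynomial V ℚ → Prop
  /-- it contains the nonconstant polynomials `F` such that at each complex point `P` the fibre of
  `F` through `P` has normal crossings or a weighted centre (`GoodPoint`), or `P` is an isolated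
  critical point of corank at most two -/
  | good (V : Type) [Fintype V] (F : MvPolynomial V ℚ) (hF : ∀ c : ℚ, F ≠ C c)
      (h : ∀ P : V → ℂ, GoodPoint (map (algebraMap ℚ ℂ) F) P ∨
        CorankTwoPoint (map (algebraMap ℚ ℂ) F) P) : FX V F
  /-- it contains all nonconstant polynomials in two variables -/
  | curve (f : MvPolynomial (Fin 2) ℚ) (hf : ∀ c : ℚ, f ≠ C c) : FX (Fin 2) f
  /-- it contains the weighted homogeneous polynomials with an isolated critical point -/
  | wh (τ : Type) [Fintype τ] [Nonempty τ] (G : MvPolynomial τ ℚ) (w : τ → ℕ) (D : ℕ)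
      (hG : IsWH G w D) : FX τ G
  /-- the sums `F(x) + G(y)` -/
  | add (V W : Type) [Fintype V] [Fintype W] (F : MvPolynomial V ℚ) (G : MvPolynomial W ℚ)
      (hF : FX V F) (hG : FX W G) : FX (V ⊕ W) (rename Sum.inl F + rename Sum.inr G)
  /-- the products `F(x) G(y)` -/
  | mul (V W : Type) [Fintype V] [Fintype W] (F : MvPolynomial V ℚ) (G : MvPolynomial W ℚ)
      (hF : FX V F) (hG : FX W G) : FX (V ⊕ W) (rename Sum.inl F * rename Sum.inr G)
  /-- the compositions `P(F(x))`, for every nonconstant polynomial `P` in one variable -/
  | comp (V : Type) [Fintype V] (F : MvPolynomial V ℚ) (P : Polynomial ℚ) (hP : 1 ≤ P.natDegree)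
      (hF : FX V F) : FX V (Polynomial.aeval F P)
  /-- variables which do not occur may be dropped -/
  | drop (V κ : Type) [Fintype V] [Fintype κ] (F : MvPolynomial V ℚ)
      (hF : FX (V ⊕ κ) (rename Sum.inl F)) : FX V F
  /-- the variables may be renamed -/
  | equiv (V W : Type) [Fintype V] [Fintype W] (i : V ≃ W) (F : MvPolynomial V ℚ)
      (hF : FX V F) : FX W (rename i F)
  /-- automorphisms of the affine space may be applied -/
  | aut (V : Type) [Fintype V] (φ ψ : V → MvPolynomial V ℚ) (h : IsAut φ ψ)
      (F : MvPolynomial V ℚ) (hF : FX V F) : FX V (aeval φ F)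

end Pool.Agent.L0h21.CK
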