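import Pool.Agent.L0h21.CK.Q6
import Pool.Agent.L0h17.CK.Pert
import Pool.Agent.L0h51.CK.Iso
import Pool.Agent.L0h51.CK.Split
import Pool.Agent.L0h6.CK.Grad
import Pool.Agent.L0h60.CK.M5
import Pool.Agent.L0h60.CK.Diag
import Pool.Agent.L0h64.CK.FJ
import Pool.Agent.L0h64.CK.Jac
import Pool.Agent.L0h71.CK.F1
import Pool.Agent.L0h71.CK.F2a
import Pool.Agent.L0h71.CK.F2b
import Pool.Agent.L0h19.CK.Gradphi
import Pool.Agent.L0h68.CK.Law
import Pool.Agent.L0h9.CK.Gauss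
import Pool.Agent.L0h9.CK.Chart
import Pool.Agent.L0h9.CK.Quad

set_option autoImplicit false

namespace Pool.Agent.L0h21.CK

theorem hy : Hy where
  split := Pool.Agent.L0h51.CK.t_split
  diag := Pool.Agent.L0h60.CK.t_diag
  iso := Pool.Agent.L0h51.CK.t_iso
  sard := Pool.Agent.L0h60.CK.t_sard
  m5 := Pool.Agent.L0h60.CK.t_m5
  f1 := Pool.Agent.L0h71.CK.t_f1
  f2a := Pool.Agent.L0h71.CK.t_f2a
  f2b := Pool.Agent.L0h71.CK.t_f2b
  f3 := Pool.Agent.L0h64.CK.t_f3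
  jac := Pool.Agent.L0h64.CK.t_jac
  grad := Pool.Agent.L0h6.CK.t_grad
  gradphi := Pool.Agent.L0h19.CK.gradphi
  pert := Pool.Agent.L0h17.CK.s_pert Pool.Agent.L0h60.CK.t_sard
  law := Pool.Agent.L0h68.CK.t_law
  chart := Pool.Agent.L0h9.CK.t_chart
  quad := Pool.Agent.L0h9.CK.t_quad
  gauss := Pool.Agent.L0h9.CK.t_gauss

end Pool.Agent.L0h21.CK
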