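import Pool.Agent.L0h21.CK.Stm

/-! Assembly: the periods of `F` from those of `G`. -/

set_option autoImplicit false
set_option linter.unusedSectionVars false

namespace Pool.Agent.L0h21.CK

open MvPolynomial
open Pool.Agent.L0h21.RW (Per' IsPer')

variable {V : Type} [Fintype V]

theorem ordS_coe {k : ℕ} {q : MvPolynomial V ℂ} (h : OrdP k q) : OrdS k (q : MvPowerSeries V ℂ) := by
  intro d hd
  rw [MvPolynomial.coeff_coe]
  exact h d hd

/-- From formal periods to periods. -/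
theorem fp_per {F : MvPolynomial V ℂ} {e : ℂ} (h : FP (F : MvPowerSeries V ℂ) e) : Per' F e := by
  obtain ⟨S, hS, c, hc, hc1⟩ := h
  let ι : MvPolynomial V ℂ →ₗ[ℂ] MvPowerSeries V ℂ :=
    (MvPolynomial.coeToMvPowerSeries.algHom ℂ).toLinearMap
  have hι : ∀ q : MvPolynomial V ℂ, ι q = (q : MvPowerSeries V ℂ) := by
    intro q
    show MvPolynomial.coeToMvPowerSeries.algHom ℂ q = _
    rw [MvPolynomial.coeToMvPowerSeries.algHom_apply]
    ext d
    simp
  refine ⟨(fun c m => (c m).comp ι) '' S, ⟨?_, ?_, ?_, ?_, ?_⟩, _, ⟨c, hc, rfl⟩, ?_⟩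
  · rintro _ ⟨c, hc, rfl⟩ h
    show c 0 (ι (F * h)) = 0
    rw [hι, MvPolynomial.coe_mul]
    exact hS.e1 c hc _
  · rintro _ ⟨c, hc, rfl⟩ m h
    show c (m + 1) (ι (F * h)) = _ * c m (ι h)
    rw [hι, hι, MvPolynomial.coe_mul]
    exact hS.e2 c hc m _
  · rintro _ ⟨c, hc, rfl⟩ i h
    show c 0 (ι (pderiv i F * h)) = 0
    rw [hι, MvPolynomial.coe_mul, ← MvPowerSeries.pderiv_coe]
    exact hS.d1 c hc i _
  · rintro _ ⟨c, hc, rfl⟩ i
    obtain ⟨c', hc', h2⟩ := hS.d2 c hc i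
    refine ⟨_, ⟨c', hc', rfl⟩, fun m h => ?_⟩
    show c m (ι (pderiv i h)) - c (m + 1) (ι (pderiv i F * h)) = c' m (ι h)
    rw [hι, hι, hι, MvPolynomial.coe_mul, ← MvPowerSeries.pderiv_coe, ← MvPowerSeries.pderiv_coe]
    exact h2 m _
  · rintro _ ⟨c, hc, rfl⟩ i
    obtain ⟨c', hc', h2⟩ := hS.mu c hc (MvPowerSeries.X i)
    refine ⟨_, ⟨c', hc', rfl⟩, fun m h => ?_⟩
    show c m (ι (X i * h)) = c' m (ι h)
    rw [hι, hι, MvPolynomial.coe_mul, MvPolynomial.coe_X]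
    exact h2 m _
  · show c 0 (ι 1) ≠ 0
    rw [hι, MvPolynomial.coe_one]
    exact hc1

theorem jac_coe (F u : MvPolynomial V ℂ) (M : ℕ) (hu : eval 0 u ≠ 0)
    (h : ∀ v, u * X v ^ M ∈ Ideal.span (Set.range fun i => pderiv i F)) (v : V) :
    (MvPowerSeries.X v : MvPowerSeries V ℂ) ^ M ∈
      Ideal.span (Set.range fun i => MvPowerSeries.pderiv ℂ i (F : MvPowerSeries V ℂ)) := by
  have h1 := Ideal.mem_map_of_mem (MvPolynomial.coeToMvPowerSeries.ringHom (R := ℂ) (σ := V)) (h v)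
  rw [Ideal.map_span, ← Set.range_comp] at h1
  have h2 : (⇑(MvPolynomial.coeToMvPowerSeries.ringHom (R := ℂ) (σ := V)) ∘
      fun i => pderiv i F) = fun i => MvPowerSeries.pderiv ℂ i (F : MvPowerSeries V ℂ) := by
    funext i
    rw [MvPowerSeries.pderiv_coe]
    rfl
  rw [h2] at h1
  have h3 : MvPolynomial.coeToMvPowerSeries.ringHom (R := ℂ) (σ := V) (u * X v ^ M) =
      (u : MvPowerSeries V ℂ) * MvPowerSeries.X v ^ M := by
    rw [map_mul, map_pow]
    congr 2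
    exact MvPolynomial.coe_X v
  rw [h3] at h1
  have h4 : IsUnit (u : MvPowerSeries V ℂ) := by
    rw [MvPowerSeries.isUnit_iff_constantCoeff, isUnit_iff_ne_zero]
    rw [← MvPowerSeries.coeff_zero_eq_constantCoeff_apply, MvPolynomial.coeff_coe,
      ← MvPolynomial.constantCoeff_eq, ← MvPolynomial.eval_zero]
    exact hu
  obtain ⟨w, hw⟩ := h4.exists_left_inv
  have h5 := Ideal.mul_mem_left _ w h1
  rwa [← mul_assoc, hw, one_mul] at h5

theorem coe_sub' (f g : MvPolynomial V ℂ) :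
    ((f - g : MvPolynomial V ℂ) : MvPowerSeries V ℂ) = (f : MvPowerSeries V ℂ) - g := by
  rw [← MvPolynomial.coeToMvPowerSeries.ringHom_apply, map_sub,
    MvPolynomial.coeToMvPowerSeries.ringHom_apply, MvPolynomial.coeToMvPowerSeries.ringHom_apply]

theorem coe_aeval (φ : V → MvPolynomial V ℂ) (F : MvPolynomial V ℂ) :
    ((aeval φ F : MvPolynomial V ℂ) : MvPowerSeries V ℂ) =
      MvPolynomial.aeval (fun v => (φ v : MvPowerSeries V ℂ)) F := by
  induction F using MvPolynomial.induction_on with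
  | C a =>
    rw [aeval_C, aeval_C, MvPolynomial.algebraMap_eq, MvPolynomial.coe_C,
      MvPowerSeries.algebraMap_apply]
    rfl
  | add f g hf hg => rw [map_add, map_add, MvPolynomial.coe_add, hf, hg]
  | mul_X f i hf => rw [map_mul, map_mul, MvPolynomial.coe_mul, hf, aeval_X, aeval_X]

/-- **The periods of `F` from those of `G`.** -/
theorem per_of_jet (hm5 : S_m5) (hf1 : S_f1) (hf2a : S_f2a) (hf2b : S_f2b) (hf3 : S_f3)
    (hjac : S_jac) (F G u : MvPolynomial V ℂ) (M k : ℕ) (φ : V → MvPolynomial V ℂ) (e : ℂ)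
    (hu : eval 0 u ≠ 0) (hM : ∀ v, u * X v ^ M ∈ Ideal.span (Set.range fun i => pderiv i F))
    (hφ : ∀ v, OrdP 2 (φ v - X v)) (hk : OrdP k (aeval φ F - G))
    (hk1 : 2 * (M * Fintype.card V * Fintype.card V + 2) + 1 ≤ k)
    (hG : ∀ x : V → ℂ, eval x G = 0 → (∀ v, eval x (pderiv v G) = 0) → x = 0)
    (h : Per' G e) : Per' F e := by
  apply fp_per
  obtain ⟨M5, h5⟩ := hm5 G hG
  obtain ⟨S, hS, hc⟩ := hf1 G e M5 h5 h
  have hφ' : ∀ v, OrdS 2 ((φ v : MvPowerSeries V ℂ) - MvPowerSeries.X v) := by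
    intro v
    have h1 := ordS_coe (hφ v)
    rwa [coe_sub', MvPolynomial.coe_X] at h1
  have hφ0 : ∀ v, MvPowerSeries.constantCoeff (φ v : MvPowerSeries V ℂ) = 0 := by
    intro v
    have h1 := hφ' v 0 (by simp)
    rw [map_sub, MvPowerSeries.coeff_zero_eq_constantCoeff_apply,
      MvPowerSeries.coeff_zero_eq_constantCoeff_apply, MvPowerSeries.constantCoeff_X, sub_zero] at h1
    exact h1
  have h6 := hjac (F : MvPowerSeries V ℂ) M (fun v => (φ v : MvPowerSeries V ℂ)) hφ'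
    (jac_coe F u M hu hM)
  set R : MvPowerSeries V ℂ := ((aeval φ F - G : MvPolynomial V ℂ) : MvPowerSeries V ℂ) with hR
  have h7 : (G : MvPowerSeries V ℂ) + R =
      MvPowerSeries.subst (fun v => (φ v : MvPowerSeries V ℂ)) (F : MvPowerSeries V ℂ) := by
    rw [hR, ← MvPolynomial.coe_add, add_sub_cancel, MvPowerSeries.subst_coe, coe_aeval]
  rw [← h7] at h6
  have hRk : OrdS k R := ordS_coe hk
  have h8 := hf2a (G : MvPowerSeries V ℂ) R e S (M * Fintype.card V) k hS h6 hRk (by omega)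
  have h9 := hf2b (G : MvPowerSeries V ℂ) R e S (M * Fintype.card V * Fintype.card V + 2) k hS h8
    (by omega) hRk hk1 hc
  rw [h7] at h9
  exact hf3 _ e _ hφ' h9

end Pool.Agent.L0h21.CK
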