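import Pool.Agent.L0h21.CK.Stm
import Pool.Agent.L0h21.RW.P16

set_option autoImplicit false

/-! # Isolated singularities of corank at most two: statements on `p`-adic integrals -/

namespace Pool.Agent.L0h21.CK

open MvPolynomial MeasureTheory
open Pool.Agent.W427.SMC (msZ bsZ mu)
open Pool.Agent.N138.SU Pool.Agent.N138.SV Pool.Agent.N138.RF Pool.Agent.L0h21.RW

attribute [local instance] msZ bsZ

/-- Lower bound for the gradient near the origin, integral coefficients. -/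
def GBz {p : ℕ} [Fact p.Prime] {V : Type} (F : MvPolynomial V ℤ_[p]) (M : ℕ) : Prop :=
  ∃ c k0 : ℕ, ∀ x : V → ℤ_[p], (∀ i, ‖x i‖ ≤ ((p : ℝ)⁻¹) ^ k0) → ∀ v, ∃ i,
    ((p : ℝ)⁻¹) ^ c * ‖x v‖ ^ M ≤ ‖eval x (pderiv i F)‖

/-- Module `law` (`F` and `F - R` have the same distribution near the origin; about 250 lines).

Proof. Let `x ≠ 0` be small, `r = max |x_v| = p ^ (-j)`, `γ = max_i |∂_i F(x)| ≥ p ^ (-c) r ^ M`,
`δ = p ^ (-c - 1) r ^ (M + 1)`. On the polydisc `D = x + δ ℤ_p ^ n` the distribution of `F` is the uniform one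
on the coset `F(x) + δ γ ℤ_p` (`F(x + δ y) = F(x) + δ ∇F(x) y + O(δ ^ 2)`, `δ < γ`: Hensel;
`Pool/Agent/L0h21/RW/P7.lean`: `law_of_chart`, `law_eq`, `P5.lean`: `chart_core`, may
help, with one component of multiplicity one; or `Pool/Agent/N138/RF/S.lean`). The same holds for
`G = F - R`, because `|∇R(x)| ≤ r ^ (k - 1) < γ`, with the coset `G(x) + δ γ ℤ_p`; it is the same coset, as
`|R(x)| ≤ r ^ k ≤ δ γ` for small `r` (`k ≥ 2 M + 2`). The ball `p ^ l ℤ_p ^ n` without the origin (which has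
measure zero if `V` is not empty) is a disjoint union of such polydiscs (the radius depends only on
`max |x_v|`, which is constant on `D`): for each `j ≥ l` the set `max |x_v| = p ^ (-j)` is a
finite disjoint union of cosets of `δ_j ℤ_p ^ n`. -/
def S_law : Prop := ∀ (p : ℕ) [Fact p.Prime] {V : Type} [Fintype V]
  (F G : MvPolynomial V ℤ_[p]) (M k : ℕ), GBz F M → OrdP k (F - G) → 2 * M + 2 ≤ k →
  ∃ k1 : ℕ, ∀ l, k1 ≤ l → ∀ H : ℤ_[p] → ℂ, Measurable H → (∃ B : ℝ, ∀ z, ‖H z‖ ≤ B) →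
    ∫ x, H (eval (fun i => (p : ℤ_[p]) ^ l * x i) F) ∂(Measure.pi fun _ : V => mu p) =
      ∫ x, H (eval (fun i => (p : ℤ_[p]) ^ l * x i) G) ∂(Measure.pi fun _ : V => mu p)

/-- Module `chart` (about 100 lines).

Proof. `φ_v(p ^ l y) = p ^ l τ_v(y)` with `τ_v(y) = y_v + p θ_v(y)`, `θ_v ∈ ℤ_p[y]`, for large `l`. So
`τ` is an isometry of `ℤ_p ^ n`, hence bijective (`Pool.Agent.W427.SMC.isom_surj`), and it
preserves the measure (it permutes the cosets of `p ^ j ℤ_p ^ n` for every `j`; see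
`Pool/Agent/L0h21/RW/P5.lean`, `P7.lean` for this argument). -/
def S_chart : Prop := ∀ (p : ℕ) [Fact p.Prime] {V : Type} [Fintype V]
  (φ : V → MvPolynomial V ℚ_[p]), (∀ v, OrdP 2 (φ v - X v)) → ∃ k1 : ℕ, ∀ l, k1 ≤ l →
  ∃ τ : (V → ℤ_[p]) → (V → ℤ_[p]),
    MeasurePreserving τ (Measure.pi fun _ : V => mu p) (Measure.pi fun _ : V => mu p) ∧
    ∀ (y : V → ℤ_[p]) (v : V), eval (fun i => (p : ℚ_[p]) ^ l * (y i : ℚ_[p])) (φ v) =
      (p : ℚ_[p]) ^ l * ((τ y v : ℤ_[p]) : ℚ_[p])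

/-- Module `quad` (nondegenerate diagonal quadratic forms; about 50 lines).

Proof. As `lqa_wh` in `Pool/Agent/L0h21/RW/P18.lean`: use `lqa_of_gi` and
`StG5` (`Pool.Agent.N138.RF.hy3.r.g5`, import `Pool.Agent.N138.RF.Fin`) for the polynomials
`p ^ K ∑ a_w p ^ (- 2 n) X_w ^ 2`, with integral coefficients for large `K`, weights `1`, `D = 2`. -/
def S_quad : Prop := ∀ (p : ℕ) [Fact p.Prime] (σ : ℚ_[p] →+* ℂ) {W : Type} [Fintype W]
  [Nonempty W] (a : W → ℚ_[p]), (∀ w, a w ≠ 0) →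
  LQA σ (∑ w, C (a w) * X w ^ 2 : MvPolynomial W ℚ_[p])

/-- Module `gauss` (Gauss sums; about 80 lines).

Proof. `Eh ν φ χ e = ∫_u conj χ(u) ∫_y ψ(u φ(y) / p ^ e)`. As `φ(y) = p ^ n ε(y)` with a unit `ε(y)`,
exchange the integrals and substitute `u ↦ u / ε(y)`:
`(∫_y χ(ε(y))) * ∫_u conj χ(u) ψ(u p ^ n / p ^ e)`, and the Gauss sum is zero
if `e` is large compared to `n` and the conductor of `χ`. See `Pool/Agent/N138/SV/D2.lean` (`psi_ne`,
`main`: there `E` with `LC`), `Pool/Agent/N138/SU/B*.lean` for the lemmas on `psi`, `Es`, `Eh`. -/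
def S_gauss : Prop := ∀ (p : ℕ) [Fact p.Prime] {Y : Type} [MeasurableSpace Y] (ν : Measure Y)
  [IsProbabilityMeasure ν] (φ : Y → ℤ_[p]), Measurable φ → ∀ n : ℕ,
  (∀ y, ‖φ y‖ = ((p : ℝ)⁻¹) ^ n) → ∀ χ : UC p, ∃ e0 : ℕ, ∀ e, e0 ≤ e → Eh ν φ χ e = 0

end Pool.Agent.L0h21.CK
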