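import Pool.Agent.L0h21.CK.Q1
import Pool.Agent.L0h21.CK.StmP
import Pool.Agent.N138.RF.Fin

/-! Assembly: the distribution of `F` near an isolated critical point, from that of `G`. -/

set_option autoImplicit false
set_option linter.unusedSectionVars false

namespace Pool.Agent.L0h21.CK

open MvPolynomial MeasureTheory
open Pool.Agent.W427.SMC (msZ bsZ mu isom_surj)
open Pool.Agent.Y230.PT (msK bsK inc inc_emb rr)
open Pool.Agent.Y230.PS (EP)
open Pool.Agent.N138.SU Pool.Agent.N138.SV Pool.Agent.N138.RF Pool.Agent.L0h21.RW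
open Pool.Agent.L0h21.SN hiding bal

attribute [local instance] msK bsK msZ bsZ

variable {p : ℕ} [Fact p.Prime] {V : Type} [Fintype V]

theorem hp0K : (p : ℚ_[p]) ≠ 0 := by exact_mod_cast (Fact.out : p.Prime).ne_zero
theorem hp0Z : (p : ℤ_[p]) ≠ 0 := by exact_mod_cast (Fact.out : p.Prime).ne_zero

theorem cpow (n : ℕ) : PadicInt.Coe.ringHom (p := p) ((p : ℤ_[p]) ^ n) = (p : ℚ_[p]) ^ n := by
  rw [map_pow, cc_p]

theorem hcoe (q : MvPolynomial V ℤ_[p]) (x : V → ℤ_[p]) : PadicInt.Coe.ringHom (p := p)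
    (eval x q) = eval (fun v => PadicInt.Coe.ringHom (p := p) (x v))
      (map (PadicInt.Coe.ringHom (p := p)) q) := by
  classical
  exact (eval_emC _ q x).symm

/-- Balls without critical points. -/
theorem noncrit (F : MvPolynomial V ℤ_[p]) (a : V → ℤ_[p]) (k : ℕ)
    (ha : ∀ y : V → ℤ_[p], ∃ i,
      eval (fun j => a j + (p : ℤ_[p]) ^ k * y j) (pderiv i F) ≠ 0) (m : ℂ → ℕ∞) :
    Gd (Measure.pi fun _ : V => mu p) (bal (fun x => eval x F) a k) m := by
  have hpk : (p : ℚ_[p]) ^ k ≠ 0 := pow_ne_zero _ hp0K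
  have h := S.t p (G5.sub ((p : ℚ_[p]) ^ k) (fun i => inc p (a i))
    (map (PadicInt.Coe.ringHom (p := p)) F)) (bal (fun x => eval x F) a k) (fun x => by
      rw [G5.eval_sub]
      unfold Pool.Agent.N138.RF.bal
      rw [G5.inc_eval]
      congr 2) (fun x => by
      obtain ⟨i, hi⟩ := ha x
      refine ⟨i, fun h0 => hi ?_⟩
      rw [G5.pderiv_sub, map_mul, eval_C, G5.eval_sub] at h0
      have h1 := (mul_eq_zero.1 h0).resolve_left hpk
      apply cc_inj (p := p)
      rw [hcoe, map_zero, ← pderiv_map, ← h1]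
      congr 2) 0
  have h2 := G5.Gd_mono (m' := m) (fun T _ => bot_le) h
  simpa using h2

theorem trl_zero' {K : Type} [CommRing K] [DecidableEq V] (q : MvPolynomial V K) : trl (0 : V → K) q = q := by
  rw [trl]
  have h2 : (fun v : V => X v + C ((0 : V → K) v)) = (X : V → MvPolynomial V K) := by
    funext v
    simp
  rw [h2, aeval_X_left, AlgHom.id_apply]

theorem gbz_of_gb {F : MvPolynomial V ℚ_[p]} {M N : ℕ} (h : GB F M) {Fz : MvPolynomial V ℤ_[p]}
    (hFz : map (PadicInt.Coe.ringHom (p := p)) Fz = C ((p : ℚ_[p]) ^ N) * F) : GBz Fz M := by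
  obtain ⟨c, k0, hk0⟩ := h
  refine ⟨c + N, k0, fun x hx v => ?_⟩
  obtain ⟨i, hi⟩ := hk0 x hx v
  refine ⟨i, ?_⟩
  have h1 : PadicInt.Coe.ringHom (p := p) (eval x (pderiv i Fz)) =
      (p : ℚ_[p]) ^ N * eval (fun j => (x j : ℚ_[p])) (pderiv i F) := by
    rw [hcoe, ← pderiv_map, hFz, pderiv_C_mul, map_mul, eval_C]
    rfl
  have h2 : ‖eval x (pderiv i Fz)‖ = ((p : ℝ)⁻¹) ^ N *
      ‖eval (fun j => (x j : ℚ_[p])) (pderiv i F)‖ := by
    have h3 : ‖eval x (pderiv i Fz)‖ = ‖PadicInt.Coe.ringHom (p := p) (eval x (pderiv i Fz))‖ := rfl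
    rw [h3, h1, norm_mul, norm_pow, Padic.norm_p]
  rw [h2, pow_add, mul_comm (((p : ℝ)⁻¹) ^ c), mul_assoc]
  exact mul_le_mul_of_nonneg_left hi (pow_nonneg (inv_nonneg.2 (Nat.cast_nonneg _)) _)

/-- The law on the balls with the centre zero. -/
theorem gd_zero (hlaw : S_law) (hchart : S_chart) (hgp : S_gradphi)
    (F G : MvPolynomial V ℚ_[p]) (φ : V → MvPolynomial V ℚ_[p]) (M k : ℕ) (hGB : GB F M)
    (hφ : ∀ v, OrdP 2 (φ v - X v)) (hk : OrdP k (aeval φ F - G)) (h2 : 2 * M + 2 ≤ k) (N : ℕ)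
    (Fz Gz : MvPolynomial V ℤ_[p])
    (hFz : map (PadicInt.Coe.ringHom (p := p)) Fz = C ((p : ℚ_[p]) ^ N) * F)
    (hGz : map (PadicInt.Coe.ringHom (p := p)) Gz = C ((p : ℚ_[p]) ^ N) * G) :
    ∃ k1, ∀ l, k1 ≤ l → ∀ m : ℂ → ℕ∞,
      Gd (Measure.pi fun _ : V => mu p) (bal (fun x => eval x Gz) 0 l) m →
      Gd (Measure.pi fun _ : V => mu p) (bal (fun x => eval x Fz) 0 l) m := by
  classical
  obtain ⟨K4, hK4⟩ := exists_int (aeval φ F)
  obtain ⟨F4, hF4⟩ := hK4 (max N K4) (le_max_right _ _)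
  set N' := max N K4 with hN'
  have hNN : N ≤ N' := le_max_left _ _
  set n := N' - N with hn
  have hNn : n + N = N' := by omega
  -- the law
  have hord : OrdP k (F4 - C ((p : ℤ_[p]) ^ n) * Gz) := by
    intro d hd
    have h3 : map (PadicInt.Coe.ringHom (p := p)) (F4 - C ((p : ℤ_[p]) ^ n) * Gz) =
        C ((p : ℚ_[p]) ^ N') * (aeval φ F - G) := by
      rw [map_sub, map_mul, map_C, hF4, hGz, cpow, ← mul_assoc, ← map_mul, ← pow_add, hNn]
      ring
    apply cc_inj (p := p)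
    rw [← coeff_map, h3, coeff_C_mul, hk d hd, mul_zero, map_zero]
  obtain ⟨k1, hk1⟩ := hlaw p F4 (C ((p : ℤ_[p]) ^ n) * Gz) M k
    (gbz_of_gb (hgp p F M φ hφ hGB) hF4) hord h2
  obtain ⟨k2, hk2⟩ := hchart p φ hφ
  refine ⟨max k1 k2, fun l hl m hG => ?_⟩
  have h3 := L2.Gd_smul (Measure.pi fun _ : V => mu p)
    (bal_cont (MvPolynomial.continuous_eval Gz) 0 l).measurable (pow_ne_zero n hp0Z) hG
  have h4 : (fun y => (p : ℤ_[p]) ^ n * bal (fun x => eval x Gz) 0 l y) =
      fun y => eval (fun i => (p : ℤ_[p]) ^ l * y i) (C ((p : ℤ_[p]) ^ n) * Gz) := by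
    funext y
    unfold Pool.Agent.N138.RF.bal
    rw [map_mul, eval_C]
    simp only [Pi.zero_apply, zero_add]
  rw [h4] at h3
  have h5 : Gd (Measure.pi fun _ : V => mu p)
      (fun y => eval (fun i => (p : ℤ_[p]) ^ l * y i) F4) m :=
    L2.Gd_congr (fun H hH hB => (hk1 l ((le_max_left _ _).trans hl) H hH hB).symm) h3
  obtain ⟨τ, hτ, hτ2⟩ := hk2 l ((le_max_right _ _).trans hl)
  have h6 : ∀ y : V → ℤ_[p], (p : ℤ_[p]) ^ n * bal (fun x => eval x Fz) 0 l (τ y) =
      eval (fun i => (p : ℤ_[p]) ^ l * y i) F4 := by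
    intro y
    apply cc_inj (p := p)
    rw [map_mul, cpow]
    unfold Pool.Agent.N138.RF.bal
    beta_reduce
    rw [hcoe, hcoe, hFz, hF4, map_mul, map_mul, eval_C, eval_C, ← mul_assoc, ← pow_add, hNn,
      eval_aeval']
    congr 2
    congr 1
    funext v
    rw [Pi.zero_apply, zero_add, map_mul, cpow]
    have h7 : eval (fun i => (p : ℚ_[p]) ^ l * (y i : ℚ_[p])) (φ v) =
      (p : ℚ_[p]) ^ l * PadicInt.Coe.ringHom (p := p) (τ y v) := hτ2 y v
    rw [← h7]
    congr 1
  refine gd_unscale (Measure.pi fun _ : V => mu p) n (φ := bal (fun x => eval x Fz) 0 l) ?_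
  refine L2.Gd_congr (fun H hH hB => ?_) h5
  have h8 : Measurable fun y => H ((p : ℤ_[p]) ^ n * bal (fun x => eval x Fz) 0 l y) :=
    hH.comp (measurable_const.mul
      (bal_cont (MvPolynomial.continuous_eval Fz) 0 l).measurable)
  have h9 := integral_map (μ := Measure.pi fun _ : V => mu p) hτ.measurable.aemeasurable
    (f := fun y => H ((p : ℤ_[p]) ^ n * bal (fun x => eval x Fz) 0 l y)) h8.aestronglyMeasurable
  rw [hτ.map_eq] at h9
  rw [h9]
  refine integral_congr_ae (Filter.Eventually.of_forall fun y => ?_)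
  beta_reduce
  rw [h6]

/-- **The local goodness of `F` from that of `G`.** -/
theorem lq_zero (hlaw : S_law) (hchart : S_chart) (hgp : S_gradphi) (hgr : S_grad)
    (hm5 : S_m5) (hf1 : S_f1) (hf2a : S_f2a) (hf2b : S_f2b) (hf3 : S_f3)
    (hjac : S_jac) (σ : ℚ_[p] →+* ℂ)
    (F G u : MvPolynomial V ℚ_[p]) (φ : V → MvPolynomial V ℚ_[p]) (M k : ℕ)
    (hF0 : eval 0 F = 0) (hG0 : eval 0 G = 0)
    (hu : eval 0 u ≠ 0) (hM : ∀ v, u * X v ^ M ∈ Ideal.span (Set.range fun i => pderiv i F))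
    (hφ : ∀ v, OrdP 2 (φ v - X v)) (hk : OrdP k (aeval φ F - G))
    (hk1 : 2 * (M * Fintype.card V * Fintype.card V + 2) + 1 ≤ k) (hk2 : 2 * M + 2 ≤ k)
    (hG : ∀ x : V → ℂ, eval x (map σ G) = 0 → (∀ v, eval x (pderiv v (map σ G)) = 0) → x = 0)
    (h : LQ σ G 0) : LQ σ F 0 := by
  classical
  have hε0 : (0 : ℝ) < (p : ℝ)⁻¹ := Pool.Agent.L0h21.RW.inv_pos'
  have hε1 : (p : ℝ)⁻¹ ≤ 1 := inv_le_one_of_one_le₀ (by
    exact_mod_cast (Fact.out : p.Prime).one_lt.le)
  have hGB : GB F M := hgr p F u M hu hM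
  obtain ⟨N, Gz, hGz, k0, hk0⟩ := h
  rw [trl_zero', hG0, map_zero, sub_zero] at hGz
  obtain ⟨KF, hKF⟩ := exists_int F
  obtain ⟨Fz, hFz⟩ := hKF (max N KF) (le_max_right _ _)
  set N' := max N KF with hN'
  have hNN : N ≤ N' := le_max_left _ _
  have hGz' : map (PadicInt.Coe.ringHom (p := p)) (C ((p : ℤ_[p]) ^ (N' - N)) * Gz) =
      C ((p : ℚ_[p]) ^ N') * G := by
    rw [map_mul, map_C, hGz, cpow, ← mul_assoc, ← map_mul, ← pow_add, Nat.sub_add_cancel hNN]
  obtain ⟨k1, hk1'⟩ := gd_zero hlaw hchart hgp F G φ M k hGB hφ hk hk2 N' Fz _ hFz hGz'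
  obtain ⟨c, k2, hk2'⟩ := gbz_of_gb hGB hFz
  refine ⟨N', Fz, ?_, max k0 (max k1 k2), fun a l hl ha => ?_⟩
  · rw [trl_zero', hF0, map_zero, sub_zero, hFz]
  have hl0 : k0 ≤ l := (le_max_left _ _).trans hl
  have hl1 : k1 ≤ l := ((le_max_left _ _).trans (le_max_right _ _)).trans hl
  have hl2 : k2 ≤ l := ((le_max_right _ _).trans (le_max_right _ _)).trans hl
  -- the multiplicities
  have hmP : ∀ T, T ≠ 0 → mP p (map (emC σ) Gz) T ≤ mP p (map (emC σ) Fz) T := by
    intro T _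
    rcases mP_or (p := p) (map (emC σ) Gz) T with h4 | h4
    · rw [h4]
      exact bot_le
    · have h5 := mP_le (p := p) (g := map (emC σ) Gz) (T := T) (a := 1) le_rfl
        (by rw [h4]; exact le_top)
      have h6 : Per (map (emC σ) Gz) ((rr p T : ℝ) : ℂ) := h5.2
      have hm1 : map (emC σ) Gz = C (σ ((p : ℚ_[p]) ^ N)) * map σ G := by
        have h7 : map (emC σ) Gz = map σ (map (PadicInt.Coe.ringHom (p := p)) Gz) := by
          rw [map_map]; rfl
        rw [h7, hGz, map_mul, map_C]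
      have hm2 : map (emC σ) Fz = C (σ ((p : ℚ_[p]) ^ N')) * map σ F := by
        have h7 : map (emC σ) Fz = map σ (map (PadicInt.Coe.ringHom (p := p)) Fz) := by
          rw [map_map]; rfl
        rw [h7, hFz, map_mul, map_C]
      rw [hm1] at h6
      have h7 := per_C _ _ (fun h0 => pow_ne_zero N hp0K ((map_eq_zero σ).1 h0)) _ h6
      obtain ⟨S, hS, c, hc, hc1⟩ := h7
      have h8 : Per' (map σ G) ((rr p T : ℝ) : ℂ) :=
        ⟨S, ⟨hS.e1, hS.e2, hS.d1, hS.d2, hS.mu⟩, c, hc, hc1⟩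
      have h9 : Per' (map σ F) ((rr p T : ℝ) : ℂ) := by
        refine per_of_jet hm5 hf1 hf2a hf2b hf3 hjac (map σ F) (map σ G) (map σ u) M k
          (fun v => map σ (φ v)) _ ?_ (fun v => ?_) (fun v => ?_) ?_ hk1 hG h8
        · have h10 : eval (0 : V → ℂ) (map σ u) = σ (eval 0 u) := by
            rw [MvPolynomial.eval_zero, MvPolynomial.eval_zero, constantCoeff_map]
          rw [h10]
          exact fun h0 => hu ((map_eq_zero σ).1 h0)
        · have h10 := Ideal.mem_map_of_mem (map σ) (hM v)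
          rw [Ideal.map_span, ← Set.range_comp, map_mul, map_pow, map_X] at h10
          have h11 : (⇑(map σ) ∘ fun i => pderiv i F) = fun i => pderiv i (map σ F) := by
            funext i
            exact (pderiv_map ..).symm
          rwa [h11] at h10
        · intro d hd
          have h10 : map σ (φ v) - X v = map σ (φ v - X v) := by rw [map_sub, map_X]
          rw [h10, coeff_map, hφ v d hd, map_zero]
        · intro d hd
          have h10 : aeval (fun v => map σ (φ v)) (map σ F) - map σ G =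
              map σ (aeval φ F - G) := by rw [map_sub, map_aeval']
          rw [h10, coeff_map, hk d hd, map_zero]
      have h10 := per_C' _ (σ ((p : ℚ_[p]) ^ N'))
        (fun h0 => pow_ne_zero N' hp0K ((map_eq_zero σ).1 h0)) _ (to_per h9)
      rw [← hm2] at h10
      rw [mP_top h5.1 h10]
      exact le_top
  by_cases hcase : ∀ i, ‖a i‖ ≤ ((p : ℝ)⁻¹) ^ l
  · -- the ball contains zero
    have hb : ∀ i, ∃ b, a i = (p : ℤ_[p]) ^ l * b := by
      intro i
      refine dvd_of_norm_le p _ _ ?_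
      rw [norm_pk]
      exact hcase i
    choose b hb using hb
    have h3 := hk0 0 l hl0 (fun i => by
      rw [Pi.zero_apply, sub_zero, norm_zero]
      positivity)
    have h4 := L2.Gd_smul (Measure.pi fun _ : V => mu p)
      (bal_cont (MvPolynomial.continuous_eval Gz) 0 l).measurable
      (pow_ne_zero (N' - N) hp0Z) h3
    have h5 : (fun y => (p : ℤ_[p]) ^ (N' - N) * bal (fun x => eval x Gz) 0 l y) =
        bal (fun x => eval x (C ((p : ℤ_[p]) ^ (N' - N)) * Gz)) 0 l := by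
      funext y
      unfold Pool.Agent.N138.RF.bal
      beta_reduce
      rw [map_mul, eval_C]
    rw [h5] at h4
    have h6 := G5.Gd_trans _ b _ (hk1' l hl1 _ h4)
    have h7 : (fun y => bal (fun x => eval x Fz) 0 l (b + y)) =
        bal (fun x => eval x Fz) a l := by
      funext y
      unfold Pool.Agent.N138.RF.bal
      beta_reduce
      congr 2
      funext i
      rw [hb i]
      simp only [Pi.zero_apply, Pi.add_apply]
      ring
    rw [h7] at h6
    exact h6.mono hmP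
  · -- no critical points
    refine noncrit Fz a l (fun y => ?_) _
    by_contra hcon
    push Not at hcon
    apply hcase
    have hx : ∀ i, ‖a i + (p : ℤ_[p]) ^ l * y i‖ ≤ ((p : ℝ)⁻¹) ^ k2 := by
      intro i
      have h3 := ha i
      rw [Pi.zero_apply, sub_zero] at h3
      refine (PadicInt.nonarchimedean _ _).trans (max_le ?_ ?_)
      · exact h3.trans (pow_le_pow_of_le_one hε0.le hε1
          ((le_max_right _ _).trans (le_max_right _ _)))
      · rw [norm_mul, norm_pk]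
        exact (mul_le_of_le_one_right (by positivity) (PadicInt.norm_le_one _)).trans
          (pow_le_pow_of_le_one hε0.le hε1 hl2)
    intro v
    obtain ⟨i, hi⟩ := hk2' (fun i => a i + (p : ℤ_[p]) ^ l * y i) hx v
    rw [hcon i, norm_zero] at hi
    have h4 : ‖a v + (p : ℤ_[p]) ^ l * y v‖ ^ M ≤ 0 := by
      have h5 : 0 < ((p : ℝ)⁻¹) ^ c := by positivity
      by_contra h6
      push Not at h6
      exact absurd (mul_pos h5 h6) (not_lt.2 hi)
    have h5 : ‖a v + (p : ℤ_[p]) ^ l * y v‖ = 0 := by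
      by_contra h6
      have h7 : 0 < ‖a v + (p : ℤ_[p]) ^ l * y v‖ := lt_of_le_of_ne (norm_nonneg _) (Ne.symm h6)
      exact absurd (pow_pos h7 M) (not_lt.2 h4)
    have h6 : a v = - ((p : ℤ_[p]) ^ l * y v) := eq_neg_of_add_eq_zero_left (norm_eq_zero.1 h5)
    rw [h6, norm_neg, norm_mul, norm_pk]
    exact mul_le_of_le_one_right (by positivity) (PadicInt.norm_le_one _)

end Pool.Agent.L0h21.CK
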