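import Pool.Agent.L0h21.CK.Q2

/-! Assembly: isolated critical points of corank at most two at the origin. -/

set_option autoImplicit false
set_option linter.unusedSectionVars false

namespace Pool.Agent.L0h21.CK

open MvPolynomial MeasureTheory
open Pool.Agent.W427.SMC (msZ bsZ mu isom_surj)
open Pool.Agent.Y230.PT (msK bsK inc inc_emb rr)
open Pool.Agent.Y230.PS (EP)
open Pool.Agent.N138.SU Pool.Agent.N138.SV Pool.Agent.N138.RF Pool.Agent.L0h21.RW
open Pool.Agent.L0h21.SN hiding bal

attribute [local instance] msK bsK msZ bsZ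

/-- The statements of the modules. -/
structure Hy : Prop where
  split : S_split
  diag : S_diag
  iso : S_iso
  sard : S_sard
  m5 : S_m5
  f1 : S_f1
  f2a : S_f2a
  f2b : S_f2b
  f3 : S_f3
  jac : S_jac
  grad : S_grad
  gradphi : S_gradphi
  pert : S_pert
  law : S_law
  chart : S_chart
  quad : S_quad
  gauss : S_gauss

section alg

variable {V W : Type}

theorem pderiv_ren_not {R : Type} [CommRing R] (f : V → W) (j : W) (hj : ∀ v, f v ≠ j)
    (q : MvPolynomial V R) : pderiv j (rename f q) = 0 := by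
  classical
  induction q using MvPolynomial.induction_on with
  | C a => rw [rename_C, pderiv_C]
  | add a b ha hb => rw [map_add, map_add, ha, hb, add_zero]
  | mul_X a v ha =>
    rw [map_mul, rename_X, Derivation.leibniz, ha, smul_zero, add_zero, pderiv_X,
      Pi.single_eq_of_ne (hj v), smul_zero]

theorem ordP_rename {R : Type} [CommRing R] (f : V → W) {k : ℕ} {q : MvPolynomial V R}
    (h : OrdP k q) : OrdP k (rename f q) := by
  intro d hd
  refine coeff_rename_eq_zero _ _ _ fun u hu => ?_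
  refine h u ?_
  rw [← Finsupp.degree_mapDomain f u, hu]
  exact hd

theorem ordP_add {R : Type} [CommRing R] {k : ℕ} {q r : MvPolynomial V R}
    (h : OrdP k q) (h' : OrdP k r) : OrdP k (q + r) := by
  intro d hd
  rw [coeff_add, h d hd, h' d hd, add_zero]

theorem ordP_sub {R : Type} [CommRing R] {k : ℕ} {q r : MvPolynomial V R}
    (h : OrdP k q) (h' : OrdP k r) : OrdP k (q - r) := by
  intro d hd
  rw [coeff_sub, h d hd, h' d hd, sub_zero]

/-- The linear substitution. -/
noncomputable def lin {V R : Type} [Fintype V] [CommRing R] (A : Matrix V V R) (v : V) :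
    MvPolynomial V R := ∑ u, C (A v u) * X u

theorem lin_eval {R : Type} [Fintype V] [CommRing R] (A : Matrix V V R) (v : V) (x : V → R) :
    eval x (lin A v) = ∑ u, A v u * x u := by
  rw [lin, map_sum]
  exact Finset.sum_congr rfl fun u _ => by rw [map_mul, eval_C, eval_X]

theorem lin_map {R S : Type} [Fintype V] [CommRing R] [CommRing S] (σ : R →+* S)
    (A : Matrix V V R) (v : V) : map σ (lin A v) = lin (A.map σ) v := by
  rw [lin, lin, map_sum]
  exact Finset.sum_congr rfl fun u _ => by rw [map_mul, map_C, map_X, Matrix.map_apply]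

theorem lin_pd {R : Type} [Fintype V] [CommRing R] (A : Matrix V V R) (v i : V) :
    pderiv i (lin A v) = C (A v i) := by
  classical
  rw [lin, map_sum, Finset.sum_eq_single i]
  · rw [pderiv_C_mul, pderiv_X_self, mul_one]
  · intro u _ hu
    rw [pderiv_C_mul, pderiv_X_of_ne hu, mul_zero]
  · intro h
    exact absurd (Finset.mem_univ i) h

theorem lin_lin {R : Type} [Fintype V] [DecidableEq V] [CommRing R] (A B : Matrix V V R)
    (h : B * A = 1) (v : V) : aeval (lin A) (lin B v) = X v := by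
  have h1 : aeval (lin A) (lin B v) = ∑ u, C (B v u) * ∑ w, C (A u w) * X w := by
    rw [lin, map_sum]
    refine Finset.sum_congr rfl fun u _ => ?_
    rw [map_mul, aeval_C, aeval_X, algebraMap_eq]
    rfl
  rw [h1]
  simp only [Finset.mul_sum]
  rw [Finset.sum_comm]
  have h2 : ∀ w, ∑ u, C (B v u) * (C (A u w) * X w) =
      (C ((B * A) v w) * X w : MvPolynomial V R) := by
    intro w
    rw [Matrix.mul_apply, map_sum, Finset.sum_mul]
    exact Finset.sum_congr rfl fun u _ => by rw [map_mul, mul_assoc]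
  rw [Finset.sum_congr rfl fun w _ => h2 w, h, Finset.sum_eq_single v]
  · rw [Matrix.one_apply_eq, map_one, one_mul]
  · intro w _ hw
    rw [Matrix.one_apply_ne (Ne.symm hw), map_zero, zero_mul]
  · intro h
    exact absurd (Finset.mem_univ v) h

end alg

variable {p : ℕ} [Fact p.Prime]

/-- The model. -/
noncomputable def mdG {W : Type} [Fintype W] (g : MvPolynomial (Fin 2) ℚ_[p]) (a : W → ℚ_[p]) :
    MvPolynomial (Fin 2 ⊕ W) ℚ_[p] :=
  rename Sum.inl g + ∑ w, C (a w) * X (Sum.inr w) ^ 2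

theorem lqa_mdG (H : Hy) (σ : ℚ_[p] →+* ℂ) {W : Type} [Fintype W]
    (g : MvPolynomial (Fin 2) ℚ_[p]) (hg : ∀ c, g ≠ C c) (a : W → ℚ_[p]) (ha : ∀ w, a w ≠ 0) :
    LQA σ (mdG g a) := by
  have hc := lqa_curve hy3.r.g4 σ g hg
  cases isEmpty_or_nonempty W with
  | inl h =>
    have h1 := lqa_equiv hy3.r.r5 σ (Equiv.sumEmpty (Fin 2) W).symm g hc
    have h2 : (mdG g a) = rename (Equiv.sumEmpty (Fin 2) W).symm g := by
      rw [mdG, Finset.univ_eq_empty, Finset.sum_empty, add_zero]
      rfl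
    rw [h2]
    exact h1
  | inr h =>
    have h1 := lqa_add hy3.r.g1 σ g _ hc (H.quad p σ a ha)
    have h2 : rename Sum.inr (∑ w, C (a w) * X w ^ 2 : MvPolynomial W ℚ_[p]) =
        (∑ w, C (a w) * X (Sum.inr w) ^ 2 : MvPolynomial (Fin 2 ⊕ W) ℚ_[p]) := by
      rw [map_sum]
      exact Finset.sum_congr rfl fun w _ => by rw [map_mul, rename_C, map_pow, rename_X]
    rw [h2] at h1
    exact h1

theorem mdG_crit (σ : ℚ_[p] →+* ℂ) {W : Type} [Fintype W]
    (g : MvPolynomial (Fin 2) ℚ_[p]) (a : W → ℚ_[p]) (ha : ∀ w, a w ≠ 0)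
    (hg : ∀ x : Fin 2 → ℂ, eval x (map σ g) = 0 →
      (∀ i, eval x (pderiv i (map σ g)) = 0) → x = 0)
    (x : Fin 2 ⊕ W → ℂ) (h0 : eval x (map σ (mdG g a)) = 0)
    (h1 : ∀ v, eval x (pderiv v (map σ (mdG g a))) = 0) : x = 0 := by
  classical
  have hm : map σ (mdG g a) = rename Sum.inl (map σ g) +
      ∑ w, C (σ (a w)) * X (Sum.inr w) ^ 2 := by
    rw [mdG, map_add, map_rename, map_sum]
    congr 1
    exact Finset.sum_congr rfl fun w _ => by rw [map_mul, map_C, map_pow, map_X]
  rw [hm] at h0 h1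
  have hz : ∀ w, x (Sum.inr w) = 0 := by
    intro w
    have h2 := h1 (Sum.inr w)
    rw [map_add, pderiv_ren_not _ _ (by simp), zero_add, map_sum, Finset.sum_eq_single w] at h2
    · rw [pderiv_C_mul, pderiv_pow, pderiv_X_self, map_mul, eval_C] at h2
      have h3 := (mul_eq_zero.1 h2).resolve_left fun h => ha w ((map_eq_zero σ).1 h)
      simpa using h3
    · intro w' _ hw'
      rw [pderiv_C_mul, pderiv_pow, pderiv_X_of_ne (fun h => hw' (Sum.inr_injective h)), mul_zero,
        mul_zero]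
    · intro h
      exact absurd (Finset.mem_univ w) h
  have hx : (fun i => x (Sum.inl i)) = 0 := by
    refine hg _ ?_ fun i => ?_
    · rw [map_add, map_sum, eval_rename, Finset.sum_eq_zero, add_zero] at h0
      · exact h0
      · intro w _
        rw [map_mul, map_pow, eval_X, hz, zero_pow (by decide), mul_zero]
    · have h2 := h1 (Sum.inl i)
      rw [map_add, pderiv_rename Sum.inl_injective, map_sum, Finset.sum_eq_zero, add_zero,
        eval_rename] at h2
      · exact h2
      · intro w _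
        rw [pderiv_C_mul, pderiv_pow, pderiv_X_of_ne (by simp), mul_zero, mul_zero]
  funext v
  rcases v with i | w
  · exact congrFun hx i
  · exact hz w

/-- **Isolated critical points of corank at most two, at the origin.** -/
theorem lq_crit0 (H : Hy) (σ : ℚ_[p] →+* ℂ) {W : Type} [Fintype W]
    (F : MvPolynomial (Fin 2 ⊕ W) ℚ_[p]) (hF0 : eval 0 F = 0)
    (hd : ∀ v, eval 0 (pderiv v F) = 0)
    (hr : Fintype.card W ≤ (Matrix.of fun u v => eval 0 (pderiv u (pderiv v F))).rank)
    (U : MvPolynomial (Fin 2 ⊕ W) ℂ) (hU : eval 0 U ≠ 0)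
    (hiso : ∀ x : Fin 2 ⊕ W → ℂ, (∀ v, eval x (pderiv v (map σ F)) = 0) →
      x = 0 ∨ eval x U = 0) : LQ σ F 0 := by
  classical
  obtain ⟨A, B, a, g0, hAB, hBA, ha, hg0, h3⟩ := H.diag ℚ_[p] W F (by
    rw [← constantCoeff_eq, ← MvPolynomial.eval_zero]; exact hF0) hd hr
  have e1 : (fun v => ∑ u, C (A v u) * X u : Fin 2 ⊕ W → MvPolynomial (Fin 2 ⊕ W) ℚ_[p]) =
      lin A := rfl
  rw [e1] at h3
  have hφ0 : ∀ v, eval 0 (lin A v) = 0 := by
    intro v
    rw [lin_eval]
    exact Finset.sum_eq_zero fun u _ => by rw [Pi.zero_apply, mul_zero]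
  set F1 := aeval (lin A) F with hF1
  refine lq_aut σ (lin A) (lin B) (lin_lin A B hBA) (lin_lin B A hAB) F 0 0 hφ0 ?_
  have hF10 : eval 0 F1 = 0 := by
    rw [hF1, eval_aeval']
    have e2 : (fun v => eval 0 (lin A v)) = 0 := funext hφ0
    rw [e2, hF0]
  -- the isolated critical point
  set U1 : MvPolynomial (Fin 2 ⊕ W) ℂ := aeval (fun v => map σ (lin A v)) U with hU1
  have hev : ∀ (x : Fin 2 ⊕ W → ℂ) v, eval x (map σ (lin A v)) = ∑ u, σ (A v u) * x u := by
    intro x v
    rw [lin_map, lin_eval]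
    rfl
  have hU10 : eval 0 U1 ≠ 0 := by
    rw [hU1, eval_aeval']
    have e2 : (fun v => eval 0 (map σ (lin A v))) = 0 := by
      funext v
      rw [hev]
      exact Finset.sum_eq_zero fun u _ => by rw [Pi.zero_apply, mul_zero]
    rw [e2]
    exact hU
  have hiso1 : ∀ x : Fin 2 ⊕ W → ℂ, (∀ v, eval x (pderiv v (map σ F1)) = 0) →
      x = 0 ∨ eval x U1 = 0 := by
    intro x hx
    set y : Fin 2 ⊕ W → ℂ := fun v => eval x (map σ (lin A v)) with hy
    have h4 : ∀ i, ∑ v, σ (A v i) * eval y (pderiv v (map σ F)) = 0 := by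
      intro i
      have h5 := hx i
      rw [hF1, map_aeval', chain_rule, map_sum] at h5
      rw [← h5]
      refine Finset.sum_congr rfl fun v _ => ?_
      rw [map_mul, eval_aeval', lin_map, lin_pd, eval_C, Matrix.map_apply]
    have h5 : ∀ j, eval y (pderiv j (map σ F)) = 0 := by
      intro j
      have h6 : ∑ i, σ (B i j) * ∑ v, σ (A v i) * eval y (pderiv v (map σ F)) = 0 :=
        Finset.sum_eq_zero fun i _ => by rw [h4, mul_zero]
      simp only [Finset.mul_sum] at h6
      rw [Finset.sum_comm] at h6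
      have h7 : ∀ v, ∑ i, σ (B i j) * (σ (A v i) * eval y (pderiv v (map σ F))) =
          σ ((A * B) v j) * eval y (pderiv v (map σ F)) := by
        intro v
        rw [Matrix.mul_apply, map_sum, Finset.sum_mul]
        exact Finset.sum_congr rfl fun i _ => by rw [map_mul]; ring
      rw [Finset.sum_congr rfl fun v _ => h7 v, hAB, Finset.sum_eq_single j] at h6
      · rw [Matrix.one_apply_eq, map_one, one_mul] at h6
        exact h6
      · intro v _ hv
        rw [Matrix.one_apply_ne hv, map_zero, zero_mul]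
      · intro h
        exact absurd (Finset.mem_univ j) h
    rcases hiso y h5 with h6 | h6
    · left
      funext v
      have h7 := congrArg (fun q => eval x (map σ q)) (lin_lin A B hBA v)
      beta_reduce at h7
      rw [map_aeval', eval_aeval', map_X, eval_X] at h7
      rw [← h7, lin_map, lin_eval, Pi.zero_apply]
      refine Finset.sum_eq_zero fun u _ => ?_
      have h8 : eval x (map σ (lin A u)) = 0 := congrFun h6 u
      rw [h8, mul_zero]
    · right
      rw [hU1, eval_aeval']
      exact h6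
  obtain ⟨u, M, hu, hM⟩ := H.iso ℚ_[p] σ F1 U1 hU10 hiso1
  obtain ⟨φ, g, hφ, hg, h4⟩ := H.split ℚ_[p] W a F1 g0 ha h3
    (max (2 * (M * Fintype.card (Fin 2 ⊕ W) * Fintype.card (Fin 2 ⊕ W) + 2) + 1) (2 * M + 2))
  obtain ⟨g', hg1, hg2, hg3, hg4⟩ := H.pert p σ g
    (max (2 * (M * Fintype.card (Fin 2 ⊕ W) * Fintype.card (Fin 2 ⊕ W) + 2) + 1) (2 * M + 2))
    (hg.trans hg0)
  have hG0 : eval 0 (mdG g' a) = 0 := by
    rw [mdG, map_add, map_sum, eval_rename, Finset.sum_eq_zero, add_zero]
    · have e2 : ((0 : Fin 2 ⊕ W → ℚ_[p]) ∘ Sum.inl) = 0 := rfl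
      rw [e2, MvPolynomial.eval_zero, constantCoeff_eq]
      exact hg3
    · intro w _
      rw [map_mul, map_pow, eval_X, Pi.zero_apply, zero_pow (by decide), mul_zero]
  have h5 : OrdP (max (2 * (M * Fintype.card (Fin 2 ⊕ W) * Fintype.card (Fin 2 ⊕ W) + 2) + 1)
      (2 * M + 2)) (aeval φ F1 - mdG g' a) := by
    have e2 : aeval φ F1 - mdG g' a = (aeval φ F1 - rename Sum.inl g -
        ∑ w, C (a w) * X (Sum.inr w) ^ 2) - rename Sum.inl (g' - g) := by
      rw [mdG, map_sub]
      ring
    rw [e2]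
    exact ordP_sub h4 (ordP_rename _ hg1)
  exact lq_zero H.law H.chart H.gradphi H.grad H.m5 H.f1 H.f2a H.f2b H.f3 H.jac σ F1 (mdG g' a) u φ
    M _ hF10 hG0 hu hM hφ h5 (le_max_left _ _) (le_max_right _ _) (mdG_crit σ g' a ha hg4)
    (lqa_mdG H σ g' hg2 a ha 0)

end Pool.Agent.L0h21.CK
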