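import Pool.Agent.L0h21.CK.Q3
import Pool.Agent.L0h21.RW.P19

/-! Assembly: isolated critical points of corank at most two, at a point. -/

set_option autoImplicit false
set_option linter.unusedSectionVars false

namespace Pool.Agent.L0h21.CK

open MvPolynomial MeasureTheory
open Pool.Agent.W427.SMC (msZ bsZ mu isom_surj)
open Pool.Agent.Y230.PT (msK bsK inc inc_emb rr)
open Pool.Agent.Y230.PS (EP)
open Pool.Agent.N138.SU Pool.Agent.N138.SV Pool.Agent.N138.RF Pool.Agent.L0h21.RW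
open Pool.Agent.L0h21.SN hiding bal

attribute [local instance] msK bsK msZ bsZ

/-- The rank after an extension of the field. -/
theorem rank_map_le {K L : Type} [Field K] [Field L] (σ : K →+* L) {m n : Type} [Fintype m]
    [Fintype n] (M : Matrix m n K) : (M.map σ).rank ≤ M.rank := by
  classical
  set S : Submodule K (m → K) := Submodule.span K (Set.range M.col) with hS
  have hr : M.rank = Module.finrank K S := M.rank_eq_finrank_span_cols
  have hfin : Module.Finite K S := inferInstance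
  let b := Module.finBasis K S
  have hmem : ∀ j, M.col j ∈ S := fun j => Submodule.subset_span ⟨j, rfl⟩
  let Bm : Matrix m (Fin (Module.finrank K S)) K := Matrix.of fun i k => (b k : m → K) i
  let Cm : Matrix (Fin (Module.finrank K S)) n K := Matrix.of fun k j => b.repr ⟨_, hmem j⟩ k
  have h1 : M = Bm * Cm := by
    ext i j
    rw [Matrix.mul_apply]
    have h2 := congrArg (fun s : S => (s : m → K) i) (b.sum_repr ⟨_, hmem j⟩)
    beta_reduce at h2
    have h3 : M i j = (M.col j) i := rfl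
    rw [h3]
    have h4 : ((⟨_, hmem j⟩ : S) : m → K) i = (M.col j) i := rfl
    rw [← h4, ← h2, Submodule.coe_sum, Finset.sum_apply]
    refine Finset.sum_congr rfl fun k _ => ?_
    rw [Submodule.coe_smul, Pi.smul_apply, smul_eq_mul, mul_comm]
    rfl
  have h2 : M.map σ = Bm.map σ * Cm.map σ := by
    conv_lhs => rw [h1]
    exact Matrix.map_mul
  rw [h2, hr]
  refine (Matrix.rank_mul_le_left _ _).trans ((Matrix.rank_le_card_width _).trans ?_)
  rw [Fintype.card_fin]

variable {p : ℕ} [Fact p.Prime]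

/-- Polynomials which vanish at a finite set. -/
theorem exists_kill {V : Type} (T : Set (V → ℂ)) (hT : T.Finite) (h0 : (0 : V → ℂ) ∉ T) :
    ∃ U : MvPolynomial V ℂ, eval 0 U ≠ 0 ∧ ∀ x ∈ T, eval x U = 0 := by
  classical
  induction T, hT using Set.Finite.induction_on with
  | empty => exact ⟨1, by rw [map_one]; exact one_ne_zero, fun x hx => absurd hx (by simp)⟩
  | @insert a s _ _ ih =>
    obtain ⟨U, hU0, hU⟩ := ih fun h => h0 (Set.mem_insert_of_mem _ h)
    have ha : a ≠ 0 := fun h => h0 (h ▸ Set.mem_insert _ _)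
    obtain ⟨v, hv⟩ := Function.ne_iff.1 ha
    refine ⟨(X v - C (a v)) * U, ?_, fun x hx => ?_⟩
    · rw [map_mul, map_sub, eval_X, eval_C, Pi.zero_apply, zero_sub]
      exact mul_ne_zero (neg_ne_zero.2 hv) hU0
    · rw [map_mul, map_sub, eval_X, eval_C]
      rcases hx with rfl | hx
      · rw [sub_self, zero_mul]
      · rw [hU x hx, mul_zero]

theorem exists_kill2 {V : Type} (F : MvPolynomial V ℂ) (hF : eval 0 F = 0) (T : Set ℂ)
    (hT : T.Finite) (h0 : (0 : ℂ) ∉ T) :
    ∃ U : MvPolynomial V ℂ, eval 0 U ≠ 0 ∧ ∀ x, eval x F ∈ T → eval x U = 0 := by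
  classical
  induction T, hT using Set.Finite.induction_on with
  | empty => exact ⟨1, by rw [map_one]; exact one_ne_zero, fun x hx => absurd hx (by simp)⟩
  | @insert a s _ _ ih =>
    obtain ⟨U, hU0, hU⟩ := ih fun h => h0 (Set.mem_insert_of_mem _ h)
    have ha : a ≠ 0 := fun h => h0 (h ▸ Set.mem_insert _ _)
    refine ⟨(F - C a) * U, ?_, fun x hx => ?_⟩
    · rw [map_mul, map_sub, hF, eval_C, zero_sub]
      exact mul_ne_zero (neg_ne_zero.2 ha) hU0
    · rw [map_mul, map_sub, eval_C]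
      rcases hx with hx | hx
      · rw [hx, sub_self, zero_mul]
      · rw [hU x hx, mul_zero]

/-- **Isolated critical points of corank at most two.** -/
theorem lq_crit (H : Hy) (σ : ℚ_[p] →+* ℂ) {W : Type} [Fintype W]
    (F : MvPolynomial (Fin 2 ⊕ W) ℚ_[p]) (Q : Fin 2 ⊕ W → ℚ_[p]) (hF0 : eval Q F = 0)
    (hd : ∀ v, eval Q (pderiv v F) = 0)
    (hr : Fintype.card W ≤ (Matrix.of fun u v => eval Q (pderiv u (pderiv v F))).rank)
    (hfin : {x : Fin 2 ⊕ W → ℂ | eval x (map σ F) = 0 ∧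
      ∀ v, eval x (pderiv v (map σ F)) = 0}.Finite) : LQ σ F Q := by
  classical
  have e0 : ∀ q : MvPolynomial (Fin 2 ⊕ W) ℚ_[p], eval 0 (trl Q q) = eval Q q := by
    intro q
    rw [eval_trl]
    congr 2
    funext v
    rw [Pi.zero_apply, zero_add]
  set F1 := trl Q F with hF1
  have hF10 : eval 0 F1 = 0 := by rw [hF1, e0, hF0]
  have hm : map σ F1 = trl (fun v => σ (Q v)) (map σ F) := map_trl _ _ _
  have hF10' : eval 0 (map σ F1) = 0 := by
    rw [MvPolynomial.eval_zero, constantCoeff_map, ← MvPolynomial.eval_zero, hF10, map_zero]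
  -- the other critical points
  set T1 : Set (Fin 2 ⊕ W → ℂ) := {x | eval x (map σ F1) = 0 ∧
    (∀ v, eval x (pderiv v (map σ F1)) = 0) ∧ x ≠ 0} with hT1
  have hT1f : T1.Finite := by
    refine (hfin.image fun x v => x v - σ (Q v)).subset ?_
    rintro x ⟨h1, h2, h3⟩
    refine ⟨fun v => x v + σ (Q v), ⟨?_, fun v => ?_⟩, ?_⟩
    · rw [hm, eval_trl] at h1
      exact h1
    · have h4 := h2 v
      rw [hm, pderiv_trl, eval_trl] at h4
      exact h4
    · funext v
      simp
  obtain ⟨U1, hU1, hU1'⟩ := exists_kill T1 hT1f fun h => h.2.2 rfl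
  obtain ⟨U2, hU2, hU2'⟩ := exists_kill2 (map σ F1) hF10'
    ({c : ℂ | ∃ x : Fin 2 ⊕ W → ℂ, eval x (map σ F1) = c ∧
      ∀ v, eval x (pderiv v (map σ F1)) = 0} \ {0})
    ((H.sard (map σ F1)).subset Set.sdiff_subset) (by simp)
  have h := lq_crit0 H σ F1 hF10 (fun v => by rw [hF1, pderiv_trl, e0]; exact hd v) (by
    refine hr.trans (le_of_eq ?_)
    congr 1
    ext u v
    rw [Matrix.of_apply, Matrix.of_apply, hF1, pderiv_trl, pderiv_trl, e0]) (U1 * U2)
    (by rw [map_mul]; exact mul_ne_zero hU1 hU2) (fun x hx => by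
      by_cases h0 : x = 0
      · exact Or.inl h0
      · right
        rw [map_mul]
        by_cases h1 : eval x (map σ F1) = 0
        · rw [hU1' x ⟨h1, hx, h0⟩, zero_mul]
        · rw [hU2' x ⟨⟨x, rfl, hx⟩, h1⟩, mul_zero])
  obtain ⟨N, Fz, hFz, hG⟩ := h
  refine ⟨N, Fz, ?_, hG⟩
  rw [hFz, trl_zero', hF10, hF0]

/-- The regular points. -/
theorem lq_reg (σ : ℚ_[p] →+* ℂ) {V : Type} [Fintype V] (F : MvPolynomial V ℚ_[p])
    (Q : V → ℚ_[p]) (hF0 : eval Q F = 0) (v : V) (hv : eval Q (pderiv v F) ≠ 0) : LQ σ F Q := by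
  classical
  refine lq_of_family Pool.Agent.L0h47.RW.hb Pool.Agent.L0h47.RW.t σ F Q (J := Unit)
    (fun _ => F) (fun _ => 1) (fun _ => le_rfl) 1 one_ne_zero ?_ (Or.inl ?_)
  · rw [hF0, map_zero, sub_zero, map_one, one_mul, Fintype.prod_unique, pow_one]
  · unfold SNCAt'
    have hss : Subsingleton {j : Unit // aeval (fun v => σ (Q v)) (map σ F) = 0} :=
      ⟨fun a b => Subtype.ext (Subsingleton.elim _ _)⟩
    refine (linearIndependent_subsingleton_index_iff _).2 fun j => ?_
    intro h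
    have h1 := congrFun h v
    apply hv
    have h2 : aeval (fun v => σ (Q v)) (pderiv v (map σ F)) = σ (eval Q (pderiv v F)) := by
      rw [pderiv_map, MvPolynomial.aeval_eq_eval, eval_map]
      have h3 := eval₂_comp_left σ (RingHom.id _) Q (pderiv v F)
      exact h3.symm
    have h4 : aeval (fun v => σ (Q v)) (pderiv v (map σ F)) = 0 := h1
    rw [h2] at h4
    exact (map_eq_zero σ).1 h4

/-- **The zeros.** -/
theorem lq_zeros (H : Hy) (σ : ℚ_[p] →+* ℂ) {W : Type} [Fintype W]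
    (F : MvPolynomial (Fin 2 ⊕ W) ℚ)
    (hfin : {x : Fin 2 ⊕ W → ℂ | eval x (map (algebraMap ℚ ℂ) F) = 0 ∧
      ∀ v, eval x (pderiv v (map (algebraMap ℚ ℂ) F)) = 0}.Finite)
    (hr : ∀ x : Fin 2 ⊕ W → ℂ, eval x (map (algebraMap ℚ ℂ) F) = 0 →
      (∀ v, eval x (pderiv v (map (algebraMap ℚ ℂ) F)) = 0) → Fintype.card W ≤
      (Matrix.of fun u v => eval x (pderiv u (pderiv v (map (algebraMap ℚ ℂ) F)))).rank)
    (Q : Fin 2 ⊕ W → ℚ_[p]) (hQ : eval Q (map (algebraMap ℚ ℚ_[p]) F) = 0) :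
    LQ σ (map (algebraMap ℚ ℚ_[p]) F) Q := by
  classical
  have hφ' : σ.comp (algebraMap ℚ ℚ_[p]) = algebraMap ℚ ℂ := RingHom.ext_rat _ _
  have hm : map σ (map (algebraMap ℚ ℚ_[p]) F) = map (algebraMap ℚ ℂ) F := by
    rw [map_map, hφ']
  have hev : ∀ q : MvPolynomial (Fin 2 ⊕ W) ℚ_[p], eval (fun v => σ (Q v)) (map σ q) =
      σ (eval Q q) := by
    intro q
    rw [eval_map]
    exact (eval₂_comp_left σ (RingHom.id _) Q q).symm
  by_cases hd : ∀ v, eval Q (pderiv v (map (algebraMap ℚ ℚ_[p]) F)) = 0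
  · refine lq_crit H σ _ Q hQ hd ?_ (by rw [hm]; exact hfin)
    have h1 := hr (fun v => σ (Q v)) (by rw [← hm, hev, hQ, map_zero]) fun v => by
      rw [← hm, pderiv_map, hev, hd v, map_zero]
    refine h1.trans (le_trans (le_of_eq ?_) (rank_map_le σ _))
    congr 1
    ext u v
    rw [Matrix.of_apply, Matrix.map_apply, Matrix.of_apply, ← hev, ← hm, pderiv_map, pderiv_map]
  · push Not at hd
    obtain ⟨v, hv⟩ := hd
    exact lq_reg σ _ Q hQ v hv

end Pool.Agent.L0h21.CK
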