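import Pool.Agent.L0h21.CK.Q4
import Pool.Agent.N138.RF.G6

/-! Assembly: the exponential sums of polynomials which are good at their zeros. -/

set_option autoImplicit false
set_option linter.unusedSectionVars false
set_option linter.unusedVariables false

namespace Pool.Agent.L0h21.CK

open MeasureTheory Pool.Agent.W574.SM Pool.Agent.Y230.RE Pool.Agent.Y230.PL
open Pool.Agent.Y230.PT Pool.Agent.Y465.TH Pool.Agent.Y230.PS Pool.Agent.Y230.TH
open Pool.Agent.W427.SMC (msZ bsZ mu tr' tr'_pos tr'_lt tr'_le Conv exists_s)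
open Pool.Agent.N138.SU Pool.Agent.N138.SV Pool.Agent.N138.RF Pool.Agent.L0h21.RW
open Pool.Agent.L0h21.SN hiding bal

attribute [local instance] msK bsK msZ bsZ

variable {p : ℕ} [Fact p.Prime] {V : Type} [Fintype V]

open MvPolynomial in
/-- From a point to the balls near the point. -/
theorem gi_pt (σ : ℚ_[p] →+* ℂ) (F : MvPolynomial V ℚ_[p]) (K : ℕ)
    (Fz : MvPolynomial V ℤ_[p]) (hFz : map (PadicInt.Coe.ringHom (p := p)) Fz =
      C ((p : ℚ_[p]) ^ K) * F) (P : V → ℤ_[p])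
    (h : LQ σ F (fun v => PadicInt.Coe.ringHom (p := p) (P v))) :
    ∃ k0 : ℕ, ∀ (a : V → ℤ_[p]) (k : ℕ),
    k0 ≤ k → (∀ i, ‖a i - P i‖ ≤ ((p : ℝ)⁻¹) ^ k0) →
    Gd (Measure.pi fun _ : V => mu p) (fun y => Pool.Agent.N138.RF.bal (fun x => eval x Fz) a k y - eval P Fz)
      (mP p (map σ (C ((p : ℚ_[p]) ^ K) * F) - C (σ (inc p (eval P Fz))))) := by
  classical
  have hp0 : (p : ℤ_[p]) ≠ 0 := by exact_mod_cast (Fact.out : p.Prime).ne_zero
  have hp0' : (p : ℚ_[p]) ≠ 0 := by exact_mod_cast (Fact.out : p.Prime).ne_zero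
  rw [← hFz]
  set Q : V → ℚ_[p] := fun v => PadicInt.Coe.ringHom (p := p) (P v) with hQ
  obtain ⟨N, Gz, hGz, k0, hk0⟩ := h
  -- `p ^ N (Fz(P + x) - Fz(P)) = p ^ K Gz(x)`
  have hE : C ((p : ℤ_[p]) ^ N) * (trl P Fz - C (eval P Fz)) = C ((p : ℤ_[p]) ^ K) * Gz := by
    apply map_injective _ (cc_inj (p := p))
    have hev : PadicInt.Coe.ringHom (p := p) (eval P Fz) = (p : ℚ_[p]) ^ K * eval Q F := by
      rw [← eval_emC, hFz, map_mul, eval_C]
    have hpow : ∀ n : ℕ, PadicInt.Coe.ringHom (p := p) ((p : ℤ_[p]) ^ n) = (p : ℚ_[p]) ^ n :=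
      fun n => by rw [map_pow, cc_p]
    rw [map_mul (map (PadicInt.Coe.ringHom (p := p))), map_sub, map_trl, map_C, map_C, hFz,
      map_mul (map (PadicInt.Coe.ringHom (p := p))), map_C, hGz, hev, hpow, hpow,
      map_mul (trl _), trl_C, map_mul C]
    ring
  have hEv : ∀ x : V → ℤ_[p], (p : ℤ_[p]) ^ N * (eval (fun v => x v + P v) Fz - eval P Fz) =
      (p : ℤ_[p]) ^ K * eval x Gz := by
    intro x
    have h1 := congrArg (eval x) hE
    rw [map_mul, map_sub, map_mul, eval_C, eval_C, eval_C, eval_trl] at h1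
    exact h1
  refine ⟨k0, fun a k hk ha => ?_⟩
  have h1 := hk0 (fun i => a i - P i) k hk (fun i => by
    rw [Pi.zero_apply, sub_zero]
    exact ha i)
  have h2 := L2.Gd_smul (Measure.pi fun _ : V => mu p)
    (bal_cont (MvPolynomial.continuous_eval Gz) (fun i => a i - P i) k).measurable
    (pow_ne_zero K hp0) h1
  have h3 : (fun y => (p : ℤ_[p]) ^ K *
      Pool.Agent.N138.RF.bal (fun x => eval x Gz) (fun i => a i - P i) k y) =
      fun y => (p : ℤ_[p]) ^ N *
        (Pool.Agent.N138.RF.bal (fun x => eval x Fz) a k y - eval P Fz) := by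
    funext y
    unfold Pool.Agent.N138.RF.bal
    beta_reduce
    rw [← hEv]
    congr 3
    congr 1
    funext v
    ring
  rw [h3] at h2
  refine (gd_unscale _ N h2).mono fun T _ => ?_
  -- the periods
  have hm1 : map (emC σ) Gz = C (σ ((p : ℚ_[p]) ^ N)) *
      (trl (fun v => σ (Q v)) (map σ F) - C (σ (eval Q F))) := by
    have h4 : map (emC σ) Gz = map σ (map (PadicInt.Coe.ringHom (p := p)) Gz) := by
      rw [map_map]; rfl
    rw [h4, hGz, map_mul, map_C, map_sub, map_trl, map_C]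
  have hm2 : map σ (map (PadicInt.Coe.ringHom (p := p)) Fz) -
      C (σ (inc p (eval P Fz))) = C (σ ((p : ℚ_[p]) ^ K)) * (map σ F - C (σ (eval Q F))) := by
    have h5 : inc p (eval P Fz) = (p : ℚ_[p]) ^ K * eval Q F := by
      have h6 : inc p (eval P Fz) = PadicInt.Coe.ringHom (p := p) (eval P Fz) := rfl
      rw [h6, ← eval_emC, hFz, map_mul, eval_C]
    rw [h5, hFz, map_mul, map_C, map_mul, map_mul]
    ring
  rw [hm2]
  rcases mP_or (p := p) (map (emC σ) Gz) T with h4 | h4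
  · rw [h4]
    exact bot_le
  · have h5 := mP_le (p := p) (g := map (emC σ) Gz) (T := T) (a := 1) le_rfl
      (by rw [h4]; exact le_top)
    have h6 : Per (map (emC σ) Gz) ((rr p T : ℝ) : ℂ) := h5.2
    rw [hm1] at h6
    have h7 := per_C _ _ (fun h0 => pow_ne_zero N hp0' ((map_eq_zero σ).1 h0)) _ h6
    have h8 : trl (fun v => σ (Q v)) (map σ F) - C (σ (eval Q F)) =
        trl (fun v => σ (Q v)) (map σ F - C (σ (eval Q F))) := by
      rw [map_sub, trl_C]
    rw [h8] at h7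
    have h9 := per_trl _ _ _ h7
    have h10 : Per (C (σ ((p : ℚ_[p]) ^ K)) * (map σ F - C (σ (eval Q F))))
        ((rr p T : ℝ) : ℂ) := by
      refine per_C _ (σ ((p : ℚ_[p]) ^ K))⁻¹ (inv_ne_zero fun h0 =>
        pow_ne_zero K hp0' ((map_eq_zero σ).1 h0)) _ ?_
      rw [← mul_assoc, ← map_mul, inv_mul_cancel₀ (fun h0 =>
        pow_ne_zero K hp0' ((map_eq_zero σ).1 h0)), map_one, one_mul]
      exact h9
    rw [mP_top h5.1 h10]
    exact le_top

/-- The norm is constant near a point which is not a zero. -/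
theorem const_norm (Fz : MvPolynomial V ℤ_[p]) (P : V → ℤ_[p])
    (h : MvPolynomial.eval P Fz ≠ 0) : ∃ n : ℕ, ∀ (a : V → ℤ_[p]),
    (∀ i, ‖a i - P i‖ ≤ ((p : ℝ)⁻¹) ^ (n + 1)) → ‖MvPolynomial.eval a Fz‖ = ((p : ℝ)⁻¹) ^ n := by
  have hε0 : (0 : ℝ) < (p : ℝ)⁻¹ := Pool.Agent.L0h21.RW.inv_pos'
  have hp1 : ((p : ℝ)⁻¹) < 1 := inv_lt_one_of_one_lt₀ (by
    exact_mod_cast (Fact.out : p.Prime).one_lt)
  refine ⟨(MvPolynomial.eval P Fz).valuation, fun a ha => ?_⟩
  set n := (MvPolynomial.eval P Fz).valuation with hn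
  have h1 : ‖MvPolynomial.eval P Fz‖ = ((p : ℝ)⁻¹) ^ n := by
    rw [PadicInt.norm_eq_zpow_neg_valuation h, ← hn, zpow_neg, zpow_natCast, inv_pow]
  have h2 := eval_lip_norm Fz a P _ (pow_pos hε0 (n + 1)).le ha
  have h3 : ((p : ℝ)⁻¹) ^ (n + 1) < ((p : ℝ)⁻¹) ^ n := pow_lt_pow_right_of_lt_one₀ hε0 hp1
    (Nat.lt_succ_self n)
  have h4 : ‖MvPolynomial.eval a Fz - MvPolynomial.eval P Fz‖ < ‖MvPolynomial.eval P Fz‖ := by
    rw [h1]
    exact h2.trans_lt h3
  have h5 : MvPolynomial.eval a Fz = (MvPolynomial.eval a Fz - MvPolynomial.eval P Fz) +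
      MvPolynomial.eval P Fz := by ring
  rw [h5, PadicInt.norm_add_eq_max_of_ne (ne_of_lt h4), max_eq_right h4.le, h1]

/-- **Polynomials which are good at their zeros.** -/
theorem xw_zeros (hg : S_gauss) (hD : StD) (emb : ℚ_[p] →+* ℂ) (F : MvPolynomial V ℚ)
    (h : ∀ P : V → ℤ_[p], MvPolynomial.eval (fun v => PadicInt.Coe.ringHom (p := p) (P v))
      (MvPolynomial.map (algebraMap ℚ ℚ_[p]) F) = 0 → LQ emb
        (MvPolynomial.map (algebraMap ℚ ℚ_[p]) F)
        (fun v => PadicInt.Coe.ringHom (p := p) (P v))) : XW w2 p F := by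
  have hdec := Classical.decEq V
  obtain ⟨K, hK⟩ := exists_int (MvPolynomial.map (algebraMap ℚ ℚ_[p]) F)
  obtain ⟨Fz, hFz⟩ := hK K le_rfl
  set φ : (V → ℤ_[p]) → ℤ_[p] := fun x => MvPolynomial.eval x Fz with hφ
  have hpK : (p : ℚ_[p]) ^ K ≠ 0 :=
    pow_ne_zero _ (by exact_mod_cast (Fact.out : p.Prime).ne_zero)
  have h0 : IsV F K φ := by
    intro x
    rw [hφ]
    beta_reduce
    rw [G5.inc_eval, hFz, map_mul, MvPolynomial.eval_C]
  have hzero : ∀ P : V → ℤ_[p], φ P = 0 →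
      MvPolynomial.eval (fun v => PadicInt.Coe.ringHom (p := p) (P v))
        (MvPolynomial.map (algebraMap ℚ ℚ_[p]) F) = 0 := by
    intro P hP
    have h1 := h0 P
    rw [hP, inc_zero] at h1
    exact (mul_eq_zero.1 h1.symm).resolve_left hpK
  refine XW_of K φ h0 fun χ => ?_
  have hφm : Measurable φ := h0.meas
  have hloc : ∀ P : V → ℤ_[p], ∃ k0 : ℕ, ∀ (k : ℕ), k0 ≤ k →
      (φ P = 0 → Gd (Measure.pi fun _ : V => mu p)
        (fun y => Pool.Agent.N138.RF.bal φ P k y - φ P)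
        (mP p (MvPolynomial.map emb (MvPolynomial.C ((p : ℚ_[p]) ^ K) *
          MvPolynomial.map (algebraMap ℚ ℚ_[p]) F) - MvPolynomial.C (emb (inc p (φ P)))))) ∧
      (φ P ≠ 0 → ∃ n : ℕ, ∀ y, ‖Pool.Agent.N138.RF.bal φ P k y‖ = ((p : ℝ)⁻¹) ^ n) := by
    intro P
    have hp0 : 0 < ((p : ℝ)⁻¹) := inv_pos.2 (by exact_mod_cast (Fact.out : p.Prime).pos)
    by_cases hP : φ P = 0
    · obtain ⟨k0, hk0⟩ := gi_pt emb _ K Fz hFz P (h P (hzero P hP))
      refine ⟨k0, fun k hk => ⟨fun _ => hk0 P k hk fun i => ?_, fun h1 => absurd hP h1⟩⟩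
      rw [sub_self, norm_zero]
      exact (pow_pos hp0 _).le
    · obtain ⟨n, hn⟩ := const_norm Fz P hP
      refine ⟨n + 1, fun k hk => ⟨fun h1 => absurd h1 hP, fun _ => ⟨n, fun y => ?_⟩⟩⟩
      refine hn _ fun i => ?_
      rw [add_sub_cancel_left, norm_mul, norm_pk]
      exact (mul_le_of_le_one_right (pow_pos hp0 _).le (PadicInt.norm_le_one _)).trans
        (pow_le_pow_of_le_one hp0.le (inv_le_one_of_one_le₀ (by
          exact_mod_cast (Fact.out : p.Prime).one_lt.le)) hk)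
  choose k0 hk0 using hloc
  obtain ⟨S, hS1, hS2⟩ := hD p k0
  have hp1 : ((p : ℝ)⁻¹) < 1 := inv_lt_one_of_one_lt₀ (by
    exact_mod_cast (Fact.out : p.Prime).one_lt)
  have hp0 : 0 < ((p : ℝ)⁻¹) := inv_pos.2 (by exact_mod_cast (Fact.out : p.Prime).pos)
  have hbm : ∀ (a : (V → ℤ_[p]) × ℕ), Measurable
      (fun y => Pool.Agent.N138.RF.bal φ a.1 a.2 y - φ a.1) := by
    intro a
    have hc : Continuous (fun (y : V → ℤ_[p]) i => a.1 i + (p : ℤ_[p]) ^ a.2 * y i) :=
      continuous_pi fun i => continuous_const.add (continuous_const.mul (continuous_apply i))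
    exact (hφm.comp hc.measurable).sub measurable_const
  set E : ((V → ℤ_[p]) × ℕ) → ℕ → ℤ_[p] → ℂ := fun a =>
    Es (Measure.pi fun _ : V => mu p)
      (fun y => Pool.Agent.N138.RF.bal φ a.1 a.2 y - φ a.1) with hE
  set cc : ((V → ℤ_[p]) × ℕ) → ℂ := fun a => ((p : ℂ)⁻¹) ^ (Fintype.card V * a.2) with hcc
  set G : ((V → ℤ_[p]) × ℕ) → ℕ → ℤ_[p] → ℂ := fun a e u =>
    psi p e (u * φ a.1) * E a e u with hG
  have hGm : ∀ a e, Measurable (G a e) := by
    intro a e
    exact Measurable.mul ((Pool.Agent.N138.SU.B3.psi_meas e).comp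
      (measurable_id.mul measurable_const)) (Es_meas _ _ (hbm a) e)
  have hGb : ∀ a e u, ‖G a e u‖ ≤ 1 := by
    intro a e u
    rw [hG]
    beta_reduce
    rw [norm_mul, Pool.Agent.N138.SU.B3.psi_norm, one_mul]
    exact Es_norm _ _ e u
  have hdec : ∀ (e : ℕ) (u : ℤ_[p]), Es (Measure.pi fun _ : V => mu p) φ e u =
      ∑ a ∈ S, cc a * G a e u := by
    intro e u
    have h1 := hS2 (fun x => psi p e (u * φ x))
      ((Pool.Agent.N138.SU.B3.psi_meas e).comp (measurable_const.mul hφm))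
      ⟨1, fun z => (Pool.Agent.N138.SU.B3.psi_norm e _).le⟩
    have h2 : Es (Measure.pi fun _ : V => mu p) φ e u =
      ∫ x, psi p e (u * φ x) ∂(Measure.pi fun _ : V => mu p) := rfl
    rw [h2, h1]
    refine Finset.sum_congr rfl fun a _ => ?_
    rw [hcc, hG, hE]
    beta_reduce
    congr 1
    unfold Es
    rw [← integral_const_mul]
    refine integral_congr_ae (Filter.Eventually.of_forall fun y => ?_)
    beta_reduce
    rw [← Pool.Agent.N138.SU.B3.psi_add]
    unfold Pool.Agent.N138.RF.bal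
    congr 1
    ring
  have hEh : (fun e : ℕ => Eh (Measure.pi fun _ : V => mu p) φ χ e) =
      ∑ a ∈ S, cc a • (fun e => hat (G a) χ e) := by
    funext e
    rw [Finset.sum_apply]
    have h1 := hat_sum S cc G e (fun a _ => hGm a e) (fun a _ => hGb a e) χ
    simp only [Pi.smul_apply, smul_eq_mul]
    rw [← h1]
    unfold Pool.Agent.N138.SU.Eh hat
    refine integral_congr_ae (Filter.Eventually.of_forall fun u => ?_)
    beta_reduce
    rw [hdec]
  rw [hEh]
  refine Submodule.sum_mem _ fun a ha => Submodule.smul_mem _ _ ?_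
  obtain ⟨hz1, hz2⟩ := hk0 a.1 a.2 (hS1 a ha)
  by_cases hL : φ a.1 = 0
  swap
  · obtain ⟨n, hn⟩ := hz2 hL
    have hbm' : Measurable (fun y => Pool.Agent.N138.RF.bal φ a.1 a.2 y) := by
      have h1 := (hbm a).add_const (φ a.1)
      simpa using h1
    have h2 : (fun e => hat (G a) χ e) =
        fun e => Eh (Measure.pi fun _ : V => mu p)
          (fun y => Pool.Agent.N138.RF.bal φ a.1 a.2 y) χ e := by
      funext e
      unfold Pool.Agent.N138.SU.Eh hat
      refine integral_congr_ae (Filter.Eventually.of_forall fun u => ?_)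
      rw [hG]
      beta_reduce
      rw [hE]
      beta_reduce
      congr 1
      unfold Es
      rw [← integral_const_mul]
      refine integral_congr_ae (Filter.Eventually.of_forall fun y => ?_)
      beta_reduce
      rw [← Pool.Agent.N138.SU.B3.psi_add]
      congr 1
      ring
    rw [h2]
    exact N0_EP _ (hg p _ _ hbm' n hn χ)
  obtain ⟨⟨N, hN⟩, hEP⟩ := hz1 hL
  have h2 : (fun e => hat (G a) χ e) =
      fun e => Eh (Measure.pi fun _ : V => mu p)
        (fun y => Pool.Agent.N138.RF.bal φ a.1 a.2 y - φ a.1) χ e := by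
    funext e
    unfold Pool.Agent.N138.SU.Eh hat
    refine integral_congr_ae (Filter.Eventually.of_forall fun u => ?_)
    rw [hG]
    beta_reduce
    rw [hL, mul_zero, Pool.Agent.N138.SU.B3.psi_zero, one_mul, hE]
    beta_reduce
    rw [hL]
  rw [h2]
  refine EP_mono (fun T hT => ?_) (hEP χ)
  rw [hL, inc_zero, map_zero, map_zero, sub_zero]
  by_cases h3 : 1 < ‖T‖ ∧ Per (MvPolynomial.map emb (MvPolynomial.C ((p : ℚ_[p]) ^ K) *
      MvPolynomial.map (algebraMap ℚ ℚ_[p]) F)) ((rr p T : ℝ) : ℂ)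
  swap
  · refine le_trans (le_of_eq ?_) bot_le
    unfold mP
    rw [if_neg h3]
    rfl
  obtain ⟨h6, h7⟩ := h3
  have hφ' : emb.comp (algebraMap ℚ ℚ_[p]) = algebraMap ℚ ℂ := RingHom.ext_rat _ _
  have h8 : Per (MvPolynomial.map (algebraMap ℚ ℂ) F) ((rr p T : ℝ) : ℂ) := by
    refine A3.t _ (emb ((p : ℚ_[p]) ^ K)) 1 (fun _ => 0) _ (fun h0 => hpK ((map_eq_zero emb).1 h0))
      one_ne_zero ?_
    have e1 : (fun i : V => MvPolynomial.C (1 : ℂ) * MvPolynomial.X i +
        MvPolynomial.C ((fun _ : V => (0 : ℂ)) i)) = MvPolynomial.X := by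
      funext i
      simp
    rw [e1, MvPolynomial.aeval_X_left, AlgHom.id_apply]
    rw [map_mul, MvPolynomial.map_C, MvPolynomial.map_map, hφ'] at h7
    exact h7
  have h9 : ((rr p T : ℝ) : ℂ) ≠ 0 := by
    have hp : (1 : ℝ) < p := by exact_mod_cast (Fact.out : p.Prime).one_lt
    have h10 : rr p T < 0 := by
      unfold rr
      rw [neg_div, neg_lt_zero]
      exact div_pos (Real.log_pos h6) (Real.log_pos hp)
    exact_mod_cast h10.ne
  have h11 : FK (hyp F) ((rr p T : ℝ) : ℂ) (1 + dl ((rr p T : ℝ) : ℂ)) := by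
    intro b hb
    obtain ⟨b', hb', hb2⟩ := A1.t _ _ h9 h8 b (Pool.Agent.Y229.isB_of_single _ b hb)
    rw [hb']
    apply dvd_dl
    rw [pow_one]
    exact Polynomial.dvd_iff_isRoot.2 hb2
  refine le_trans le_top ?_
  unfold Pool.Agent.Y230.PS.tr
  rw [if_neg (not_le.2 h6)]
  exact le_mW (w := w2) h11

end Pool.Agent.L0h21.CK
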