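import Pool.Agent.L0h21.CK.Q5
import Pool.Agent.L0h21.RW.P20

/-! Assembly: the Poincare series. -/

set_option autoImplicit false
set_option linter.unusedSectionVars false
set_option linter.unusedVariables false

namespace Pool.Agent.L0h21.CK

open MeasureTheory MvPolynomial Pool.Agent.W427.SMC Pool.Agent.Y230.PT Pool.Agent.Y230.PS
open Pool.Agent.Y230.TH Pool.Agent.R852.PP Pool.Agent.N138.SU Pool.Agent.N138.SV
open Pool.Agent.N138.RF Pool.Agent.L0h21.RW
open scoped ENNReal
open Pool.Agent.Y230.RE Pool.Agent.W574.SM Pool.Agent.W574.RO Pool.Agent.W574.CN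

attribute [local instance] msZ bsZ

variable {p : ℕ} [Fact p.Prime] {V : Type} [Fintype V]

/-- The singular points of `F = 0` are isolated. -/
def IsoC (F : MvPolynomial V ℚ) : Prop :=
  {x : V → ℂ | eval x (map (algebraMap ℚ ℂ) F) = 0 ∧
    ∀ v, eval x (pderiv v (map (algebraMap ℚ ℂ) F)) = 0}.Finite

/-- The rank of the Hessian at the singular points of `F = 0` is at least `r`. -/
def RankC (F : MvPolynomial V ℚ) (r : ℕ) : Prop :=
  ∀ x : V → ℂ, eval x (map (algebraMap ℚ ℂ) F) = 0 →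
    (∀ v, eval x (pderiv v (map (algebraMap ℚ ℂ) F)) = 0) → r ≤
      (Matrix.of fun u v => eval x (pderiv u (pderiv v (map (algebraMap ℚ ℂ) F)))).rank

theorem iso_rename {W : Type} [Fintype W] (e : V ≃ W) {F : MvPolynomial V ℚ} (h : IsoC F) :
    IsoC (rename e F) := by
  refine (h.preimage (f := fun (x : W → ℂ) v => x (e v)) ?_).subset ?_
  · intro x _ y _ hxy
    funext w
    have h1 := congrFun hxy (e.symm w)
    simpa using h1
  · rintro x ⟨h1, h2⟩
    refine ⟨?_, fun v => ?_⟩
    · rw [map_rename, eval_rename] at h1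
      exact h1
    · have h3 := h2 (e v)
      rw [map_rename, pderiv_rename e.injective, eval_rename] at h3
      exact h3

theorem rank_rename {W : Type} [Fintype W] (e : V ≃ W) {F : MvPolynomial V ℚ} {r : ℕ}
    (h : RankC F r) : RankC (rename e F) r := by
  intro x h1 h2
  have h3 := h (fun v => x (e v)) (by
    rw [map_rename, eval_rename] at h1
    exact h1) fun v => by
    have h3 := h2 (e v)
    rw [map_rename, pderiv_rename e.injective, eval_rename] at h3
    exact h3
  refine h3.trans (le_of_eq ?_)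
  rw [← Matrix.rank_submatrix (Matrix.of fun u v => eval x
    (pderiv u (pderiv v (map (algebraMap ℚ ℂ) (rename e F))))) e e]
  congr 1
  ext u v
  rw [Matrix.submatrix_apply, Matrix.of_apply, Matrix.of_apply, map_rename,
    pderiv_rename e.injective, pderiv_rename e.injective, eval_rename]
  rfl

/-- **The exponential sums.** -/
theorem XG_iso (H : Hy) (F : MvPolynomial V ℚ) (hV : 2 ≤ Fintype.card V) (hnc : ∀ c, F ≠ C c)
    (h1 : IsoC F) (h2 : RankC F (Fintype.card V - 2)) : XG w2 p F := by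
  classical
  obtain ⟨emb⟩ := exists_emb p
  have e : V ≃ Fin 2 ⊕ Fin (Fintype.card V - 2) := Fintype.equivOfCardEq (by simp; omega)
  have h3 : XW w2 p (rename e F) := xw_zeros H.gauss hy3.d emb _ fun P hP =>
    lq_zeros H emb (rename e F) (iso_rename e h1) (by
      rw [Fintype.card_fin]
      exact rank_rename e h2) _ hP
  have h4 : XW w2 p F := by
    have h5 := XW_equiv e.symm _ h3
    rw [rename_rename] at h5
    simpa using h5
  exact ⟨fun h0 => hnc 0 (by rw [h0, map_zero]), FR_of_XW (FK_nc _ hnc) h4, h4⟩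

/-- **The Poincare series of a polynomial with good exponential sums.** -/
theorem poin_of_XG (F : MvPolynomial V ℤ) (h : XG w2 p (map (Int.castRingHom ℚ) F))
    (b : Polynomial ℂ) (hb : Pool.Agent.H628R4.TP.IsBFunction (map (Int.castRingHom ℂ) F) b) :
    ∃ Φ : RatFunc ℂ, ((Φ.denom : Polynomial ℂ) : PowerSeries ℂ) * poincare p F =
        ((Φ.num : Polynomial ℂ) : PowerSeries ℂ) ∧
      ∀ T₀ : ℂ, Φ.denom.eval T₀ = 0 → b.eval ((-Real.log ‖T₀‖ / Real.log p : ℝ) : ℂ) = 0 := by
  have hM : IsMltP p false (mI w2 p) (rG p (wH w2 p)) := isMltW_2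
  have h0 : FR p (mI w2 p (hyp (map (Int.castRingHom ℚ) F)))
      (Pool.Agent.Y230.PS.FF ((hyp (map (Int.castRingHom ℚ) F)).toP p)) :=
    h.2.1.mono (hM.base.hyp (hyp (map (Int.castRingHom ℚ) F)))
  obtain ⟨D, P, hD0, h3, h2⟩ := (h0.mono fun T _ => le_of_eq (mI_2 _ T)).rat
  have h1 : ∀ s : ℝ, 0 ≤ s →
      D.eval ((tr' p s : ℝ) : ℂ) * ((∫⁻ x : V → ℤ_[p], tau p s (aeval x F)
        ∂(Measure.pi fun _ : V => mu p)).toReal : ℂ) = P.eval ((tr' p s : ℝ) : ℂ) := by
    intro s hs
    have h4 := h3 s hs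
    rw [FF_hyp] at h4
    rw [← h4]
    simp only [tau_N]
  obtain ⟨Φ, h3, h4, h5⟩ := poincare_of p _ D P hD0 h1
  refine ⟨Φ, h3, fun T hT0 => ?_⟩
  have hd : Φ.denom ≠ 0 := Φ.denom_ne_zero
  have h6 : Φ.denom.rootMultiplicity T ≠ 0 := by
    rw [Ne, Polynomial.rootMultiplicity_eq_zero_iff]
    intro h
    exact hd (h hT0)
  have hT : T ≠ 0 := by
    rintro rfl
    exact h6 h4
  refine root_of_tr (map (Int.castRingHom ℚ) F) b ?_ T (D.rootMultiplicity T) (fun h0 => ?_)
    (h2 T hT)
  · rw [map_map]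
    exact hb
  · have := h5 T
    omega

end Pool.Agent.L0h21.CK
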