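import Pool.Agent.L0h21.CK.Fin

/-! Polynomials with integral coefficients. -/

set_option autoImplicit false
set_option linter.unusedSectionVars false
set_option linter.unusedVariables false

namespace Pool.Agent.L0h21.CK

open MvPolynomial Pool.Agent.W427.SMC Pool.Agent.H628R4.TP Pool.Agent.L0h21.RW
open Pool.Agent.N138.RF Pool.Agent.Y230.RE Pool.Agent.W574.SM Pool.Agent.W574.RO
open Pool.Agent.N138.SU Pool.Agent.N138.SV Pool.Agent.W574.CN

variable {V : Type} [Fintype V]

theorem eval_int (F : MvPolynomial V ℤ) (P : V → ℂ) :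
    eval P (map (algebraMap ℚ ℂ) (map (Int.castRingHom ℚ) F)) = aeval P F := by
  rw [map_map, eval_map, aeval_def]
  congr 1

theorem nc_int (F : MvPolynomial V ℤ) (h0 : F.totalDegree ≠ 0) (c : ℚ) :
    map (Int.castRingHom ℚ) F ≠ C c := by
  intro h
  apply h0
  have h1 : F = C (coeff 0 F) := by
    apply map_injective (Int.castRingHom ℚ) Int.cast_injective
    rw [map_C, h]
    congr 1
    have h2 := congrArg (coeff 0) h
    rw [coeff_map, coeff_zero_C] at h2
    exact h2.symm
  rw [h1, totalDegree_C]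

/-- One variable. -/
theorem fw_one (F : MvPolynomial V ℚ) (hV : Fintype.card V = 1) (hnc : ∀ c, F ≠ C c) :
    FW V F := by
  have e : V ⊕ Unit ≃ Fin 2 := Fintype.equivOfCardEq (by simp [hV])
  refine FW.drop V Unit F ?_
  have h1 : FW (Fin 2) (rename e (rename Sum.inl F)) := by
    refine FW.curve _ fun c h => hnc c ?_
    have h2 := congrArg (rename e.symm) h
    rw [rename_rename, rename_C] at h2
    simp only [Equiv.symm_comp_self, rename_id, AlgHom.id_apply] at h2
    refine rename_injective (Sum.inl : V → V ⊕ Unit) Sum.inl_injective ?_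
    rw [rename_C]
    simpa using h2
  have h3 := FW.equiv (Fin 2) (V ⊕ Unit) e.symm _ h1
  rw [rename_rename] at h3
  simpa using h3

/-- **The theorem.** -/
theorem poin_iso (F : MvPolynomial V ℤ) (h0 : F.totalDegree ≠ 0)
    (hiso : {P : V → ℂ | aeval P F = 0 ∧ ∀ v, aeval P (pderiv v F) = 0}.Finite)
    (hrank : ∀ P : V → ℂ, aeval P F = 0 → (∀ v, aeval P (pderiv v F) = 0) →
      Fintype.card V ≤ (Matrix.of fun u v => aeval P (pderiv u (pderiv v F))).rank + 2)
    (p : ℕ) [Fact p.Prime] (b : Polynomial ℂ)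
    (hb : IsBFunction (map (Int.castRingHom ℂ) F) b) :
    ∃ Φ : RatFunc ℂ,
      ((Φ.denom : Polynomial ℂ) : PowerSeries ℂ) * poincare p F =
        ((Φ.num : Polynomial ℂ) : PowerSeries ℂ) ∧
      ∀ T₀ : ℂ, Φ.denom.eval T₀ = 0 →
        b.eval ((-Real.log ‖T₀‖ / Real.log p : ℝ) : ℂ) = 0 := by
  have hnc := nc_int F h0
  have hpd : ∀ (G : MvPolynomial V ℤ) (v : V), pderiv v (map (algebraMap ℚ ℂ)
      (map (Int.castRingHom ℚ) G)) = map (algebraMap ℚ ℂ) (map (Int.castRingHom ℚ)
        (pderiv v G)) := fun G v => by rw [pderiv_map, pderiv_map]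
  by_cases hV : 2 ≤ Fintype.card V
  · refine poin_of_XG F (XG_iso hy _ hV hnc ?_ ?_) b hb
    · refine hiso.subset ?_
      rintro P ⟨h1, h2⟩
      refine ⟨by rwa [eval_int] at h1, fun v => ?_⟩
      have h3 := h2 v
      rwa [hpd, eval_int] at h3
    · intro P h1 h2
      have h4 := hrank P (by rwa [eval_int] at h1) fun v => by
        have h3 := h2 v
        rwa [hpd, eval_int] at h3
      have h5 : (Matrix.of fun u v => eval P (pderiv u (pderiv v (map (algebraMap ℚ ℂ)
          (map (Int.castRingHom ℚ) F))))) =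
          Matrix.of fun u v => aeval P (pderiv u (pderiv v F)) := by
        ext u v
        rw [Matrix.of_apply, Matrix.of_apply, hpd, hpd, eval_int]
      rw [h5]
      omega
  · have hV1 : Fintype.card V = 1 := by
      rcases Nat.eq_zero_or_pos (Fintype.card V) with h | h
      · exfalso
        have h1 : IsEmpty V := Fintype.card_eq_zero_iff.1 h
        apply h0
        rw [eq_C_of_isEmpty F, totalDegree_C]
      · omega
    exact cl4_poin F (Cl4.prin _ (Cl4.poly _ (Cl4.fw V _ (fw_one _ hV1 hnc)))) b hb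

end Pool.Agent.L0h21.CK
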