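import Pool.Agent.L0h21.CK.Fin
import Pool.Agent.L0h21.CK.FX

/-! Local goodness at points: renaming, good points, isolated points of corank at most two. -/

set_option autoImplicit false
set_option linter.unusedSectionVars false
set_option linter.unusedVariables false

namespace Pool.Agent.L0h21.CK

open MvPolynomial MeasureTheory
open Pool.Agent.W427.SMC (msZ bsZ mu isom_surj)
open Pool.Agent.Y230.PT (msK bsK inc inc_emb rr)
open Pool.Agent.Y230.PS (EP)
open Pool.Agent.N138.SU Pool.Agent.N138.SV Pool.Agent.N138.RF Pool.Agent.L0h21.RW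
open Pool.Agent.L0h21.SN hiding bal

attribute [local instance] msK bsK msZ bsZ

variable {p : ℕ} [Fact p.Prime] {V : Type} [Fintype V]

theorem rename_trl {W : Type} [Fintype W] [DecidableEq V] [DecidableEq W] (e : V ≃ W)
    (F : MvPolynomial V ℚ_[p]) (Q : V → ℚ_[p]) :
    rename e.symm (trl (fun w => Q (e.symm w)) (rename e F)) = trl Q F := by
  induction F using MvPolynomial.induction_on with
  | C a => simp [trl]
  | add f g hf hg => rw [map_add, map_add, map_add, hf, hg, map_add]
  | mul_X f i hf =>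
    rw [map_mul, map_mul, map_mul, hf, rename_X, trl_X, map_add, rename_X, rename_C,
      map_mul, trl_X, Equiv.symm_apply_apply]

/-- Renaming the variables. -/
theorem lq_equiv {W : Type} [Fintype W] (σ : ℚ_[p] →+* ℂ) (e : V ≃ W) (F : MvPolynomial V ℚ_[p])
    (Q : V → ℚ_[p]) (h : LQ σ (rename e F) (fun w => Q (e.symm w))) : LQ σ F Q := by
  classical
  obtain ⟨N, Fz', hFz', k0, hk0⟩ := h
  have hinv : ∀ {R : Type} [CommRing R] (q : MvPolynomial V R),
      rename e.symm (rename e q) = q := by
    intro R _ q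
    rw [rename_rename]
    simp
  have htr := rename_trl e F Q
  have hev : eval (fun w => Q (e.symm w)) (rename e F) = eval Q F := by
    rw [eval_rename]
    congr 2
    funext v
    simp
  have hz : map (PadicInt.Coe.ringHom (p := p)) (rename e.symm Fz') =
      C ((p : ℚ_[p]) ^ N) * (trl Q F - C (eval Q F)) := by
    rw [map_rename, hFz', map_mul, map_sub, rename_C, rename_C, htr, hev]
  refine ⟨N, rename e.symm Fz', hz, k0, fun a k hk ha => ?_⟩
  have h1 := hk0 (fun w => a (e.symm w)) k hk (fun w => ha (e.symm w))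
  have h2 := (Pool.Agent.N138.RF.Gd_pi_equiv e.symm
    (Pool.Agent.N138.RF.bal (fun x => eval x Fz') (fun w => a (e.symm w)) k) _).2 h1
  have h3 : (fun y : V → ℤ_[p] => Pool.Agent.N138.RF.bal (fun x => eval x Fz')
      (fun w => a (e.symm w)) k (fun w => y (e.symm w))) =
      Pool.Agent.N138.RF.bal (fun x => eval x (rename e.symm Fz')) a k := by
    funext y
    unfold Pool.Agent.N138.RF.bal
    beta_reduce
    rw [eval_rename]
    rfl
  rw [h3] at h2
  refine h2.mono fun T _ => ?_
  rcases mP_or (p := p) (map (emC σ) Fz') T with h4 | h4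
  · rw [h4]
    exact bot_le
  · have h5 := mP_le (p := p) (g := map (emC σ) Fz') (T := T) (a := 1) le_rfl
      (by rw [h4]; exact le_top)
    have h6 := hy3.r.r5 e.symm _ _ h5.2
    rw [← map_rename] at h6
    rw [mP_top h5.1 h6]
    exact le_top

/-- **Good points.** -/
theorem lq_good (σ : ℚ_[p] →+* ℂ) (F : MvPolynomial V ℚ) (P : V → ℚ_[p])
    (h : GoodPoint (map (algebraMap ℚ ℂ) F) (fun v => σ (P v))) :
    LQ σ (map (algebraMap ℚ ℚ_[p]) F) P := by
  classical
  have hb : S_HB := Pool.Agent.L0h47.RW.hb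
  have ht : S_T := Pool.Agent.L0h47.RW.t
  have hemb : σ.comp (algebraMap ℚ ℚ_[p]) = algebraMap ℚ ℂ := RingHom.ext_rat _ _
  set F' : MvPolynomial V ℚ_[p] := map (algebraMap ℚ ℚ_[p]) F with hF'
  have hFσ : map σ F' = map (algebraMap ℚ ℂ) F := by rw [hF', map_map, hemb]
  obtain ⟨J, iJ, f, m, c, φ, ψ, Q, hfac, hm, hc, ⟨ha1, ha2⟩, hQ, hoc, hof, hoφ, hoψ, hcen⟩ := h
  have hinj : Function.Injective (MvPolynomial.map σ : MvPolynomial V ℚ_[p] → MvPolynomial V ℂ) :=
    MvPolynomial.map_injective σ σ.injective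
  choose f' hf' using fun j => lift_over σ P (f j) (hof j)
  choose φ' hφ' using fun v => lift_over σ P (φ v) (hoφ v)
  choose ψ' hψ' using fun v => lift_over σ P (ψ v) (hoψ v)
  obtain ⟨c', hc'⟩ : ∃ c' : ℚ_[p], σ c' = c := by
    have h1 := hoc 0
    rw [coeff_zero_C] at h1
    exact closure_le_range σ P h1
  have hφφ : (fun v => map σ (φ' v)) = φ := funext hφ'
  have hψψ : (fun v => map σ (ψ' v)) = ψ := funext hψ'
  have ha1' : ∀ v, aeval φ' (ψ' v) = X v := by
    intro v
    apply hinj
    rw [map_aeval', hφφ, hψ', ha1, map_X]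
  have ha2' : ∀ v, aeval ψ' (φ' v) = X v := by
    intro v
    apply hinj
    rw [map_aeval', hψψ, hφ', ha2, map_X]
  set Q' : V → ℚ_[p] := fun v => eval P (ψ' v) with hQ'
  have hφQ' : ∀ v, eval Q' (φ' v) = P v := by
    intro v
    have h1 := congrArg (eval P) (ha2' v)
    rw [eval_aeval', eval_X] at h1
    exact h1
  have hσQ : (fun v => σ (Q' v)) = Q := by
    funext v
    have h1 := congrArg (eval Q) (ha1 v)
    rw [eval_aeval', eval_X] at h1
    have h2 : (fun v => eval Q (φ v)) = fun v => σ (P v) := funext hQ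
    rw [← h1, h2, ← hψ' v, ← sig_eval]
  have hc0' : c' ≠ 0 := by
    rintro rfl
    rw [map_zero] at hc'
    exact hc hc'.symm
  have hfac' : F' - C (eval P F') = C c' * ∏ j, f' j ^ m j := by
    apply hinj
    rw [map_sub, map_mul, map_prod, map_C, map_C, hc', hFσ]
    rw [sig_eval, hFσ, hfac]
    congr 1
    refine Finset.prod_congr rfl fun j _ => ?_
    rw [map_pow, hf']
  have hfac2 : aeval φ' F' - C (eval Q' (aeval φ' F')) =
      C c' * ∏ j, (aeval φ' (f' j)) ^ m j := by
    have h1 := congrArg (aeval φ') hfac'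
    rw [map_sub, map_mul, map_prod, aeval_C, aeval_C, algebraMap_eq] at h1
    rw [eval_aeval', funext hφQ', h1]
    congr 1
    exact Finset.prod_congr rfl fun j _ => map_pow _ _ _
  rcases hcen with h1 | ⟨w, e, g, h2, H⟩
  · refine lq_of_family hb ht σ F' P f' m hm c' hc0' hfac' (Or.inl ?_)
    have h2 : (fun j => map σ (f' j)) = f := funext hf'
    rw [h2]
    exact (nc_iff f _).mp h1
  · refine lq_aut σ φ' ψ' ha1' ha2' F' P Q' hφQ' ?_
    refine lq_of_family hb ht σ (aeval φ' F') Q' (fun j => aeval φ' (f' j)) m hm c' hc0' hfac2 ?_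
    right
    have h3 : (fun j => map σ (aeval φ' (f' j))) = fun j => aeval φ (f j) := by
      funext j
      rw [map_aeval', hφφ, hf']
    rw [h3, hσQ]
    exact ⟨w, e, g, h2, centre_of H⟩

/-- The case of the variables `x`, `y`, `z_w`. -/
theorem lq_ct0 (H : Hy) (σ : ℚ_[p] →+* ℂ) {W : Type} [Fintype W]
    (F : MvPolynomial (Fin 2 ⊕ W) ℚ_[p]) (Q : Fin 2 ⊕ W → ℚ_[p])
    (h : CorankTwoPoint (map σ F) (fun v => σ (Q v))) : LQ σ F Q := by
  classical
  obtain ⟨-, hd0, hr0, U, hU, hiso⟩ := h
  have hev : ∀ q : MvPolynomial (Fin 2 ⊕ W) ℚ_[p], eval (fun v => σ (Q v)) (map σ q) =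
      σ (eval Q q) := fun q => (sig_eval σ Q q).symm
  have e0 : ∀ q : MvPolynomial (Fin 2 ⊕ W) ℚ_[p], eval 0 (trl Q q) = eval Q q := by
    intro q
    rw [eval_trl]
    congr 2
    funext v
    rw [Pi.zero_apply, zero_add]
  have hd : ∀ v, eval Q (pderiv v F) = 0 := by
    intro v
    have h1 := hd0 v
    rw [pderiv_map, hev] at h1
    exact (map_eq_zero σ).1 h1
  set F1 := trl Q F - C (eval Q F) with hF1
  have hF10 : eval 0 F1 = 0 := by rw [hF1, map_sub, e0, eval_C, sub_self]
  have hpd : ∀ v, pderiv v F1 = trl Q (pderiv v F) := by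
    intro v
    rw [hF1, map_sub, pderiv_C, sub_zero, pderiv_trl]
  have hpd2 : ∀ u v, pderiv u (pderiv v F1) = trl Q (pderiv u (pderiv v F)) := by
    intro u v
    rw [hpd, pderiv_trl]
  have hm : map σ F1 = trl (fun v => σ (Q v)) (map σ F) - C (σ (eval Q F)) := by
    rw [hF1, map_sub, map_trl, map_C]
  have hmd : ∀ v, pderiv v (map σ F1) = trl (fun v => σ (Q v)) (pderiv v (map σ F)) := by
    intro v
    rw [hm, map_sub, pderiv_C, sub_zero, pderiv_trl]
  have hF10' : eval 0 (map σ F1) = 0 := by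
    rw [MvPolynomial.eval_zero, constantCoeff_map, ← MvPolynomial.eval_zero, hF10, map_zero]
  obtain ⟨U2, hU2, hU2'⟩ := exists_kill2 (map σ F1) hF10'
    ({c : ℂ | ∃ x : Fin 2 ⊕ W → ℂ, eval x (map σ F1) = c ∧
      ∀ v, eval x (pderiv v (map σ F1)) = 0} \ {0})
    ((H.sard (map σ F1)).subset Set.sdiff_subset) (by simp)
  have hU1 : eval 0 (trl (fun v => σ (Q v)) U) ≠ 0 := by
    rw [eval_trl]
    have e1 : (fun v => (0 : Fin 2 ⊕ W → ℂ) v + σ (Q v)) = fun v => σ (Q v) := by
      funext v
      rw [Pi.zero_apply, zero_add]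
    rw [e1]
    exact hU
  have h := lq_crit0 H σ F1 hF10 (fun v => by rw [hpd, e0]; exact hd v) (by
    have h1 : (Matrix.of fun u v => eval (fun v => σ (Q v)) (pderiv u (pderiv v (map σ F)))) =
        (Matrix.of fun u v => eval 0 (pderiv u (pderiv v F1))).map σ := by
      ext u v
      rw [Matrix.of_apply, Matrix.map_apply, Matrix.of_apply, hpd2, e0, pderiv_map, pderiv_map,
        hev]
    have h2 := rank_map_le σ (Matrix.of fun u v => eval 0 (pderiv u (pderiv v F1)))
    rw [← h1] at h2
    rw [Fintype.card_sum, Fintype.card_fin] at hr0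
    omega) (trl (fun v => σ (Q v)) U * U2)
    (by rw [map_mul]; exact mul_ne_zero hU1 hU2) (fun x hx => by
      by_cases h0 : x = 0
      · exact Or.inl h0
      · right
        rw [map_mul]
        by_cases h1 : eval x (map σ F1) = 0
        · have h2 := hiso (fun v => x v + σ (Q v)) (by
            rw [hm, map_sub, eval_trl, eval_C, sub_eq_zero] at h1
            rw [h1, hev]) (fun v => by
            have h3 := hx v
            rw [hmd, eval_trl] at h3
            exact h3)
          rcases h2 with h2 | h2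
          · exfalso
            apply h0
            funext v
            have h3 := congrFun h2 v
            simpa using h3
          · rw [eval_trl, h2, zero_mul]
        · rw [hU2' x ⟨⟨x, rfl, hx⟩, h1⟩, mul_zero])
  obtain ⟨N, Fz, hFz, hG⟩ := h
  refine ⟨N, Fz, ?_, hG⟩
  rw [hFz, trl_zero', hF10, map_zero, sub_zero]

/-- **Isolated critical points of corank at most two.** -/
theorem lq_ct (H : Hy) (σ : ℚ_[p] →+* ℂ) (F : MvPolynomial V ℚ_[p]) (Q : V → ℚ_[p])
    (h : CorankTwoPoint (map σ F) (fun v => σ (Q v))) : LQ σ F Q := by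
  classical
  have hV := h.1
  have e : V ≃ Fin 2 ⊕ Fin (Fintype.card V - 2) := Fintype.equivOfCardEq (by simp; omega)
  refine lq_equiv σ e F Q (lq_ct0 H σ _ _ ?_)
  obtain ⟨-, hd, hr, U, hU, hiso⟩ := h
  have hev : ∀ (q : MvPolynomial V ℂ) (x : Fin 2 ⊕ Fin (Fintype.card V - 2) → ℂ),
      eval x (rename e q) = eval (fun v => x (e v)) q := by
    intro q x
    rw [eval_rename]
    rfl
  have hpt : (fun v => σ (Q (e.symm (e v)))) = fun v => σ (Q v) := by
    funext v
    simp
  rw [map_rename]
  have hpd : ∀ v (q : MvPolynomial V ℂ), pderiv v (rename e q) =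
      rename e (pderiv (e.symm v) q) := by
    intro v q
    rw [← pderiv_rename e.injective, Equiv.apply_symm_apply]
  refine ⟨by simp, fun v => ?_, ?_, rename e U, ?_, fun x h1 h2 => ?_⟩
  · rw [hpd, hev, hpt]
    exact hd _
  · have h1 : (Matrix.of fun u v => eval (fun w => σ (Q (e.symm w)))
        (pderiv u (pderiv v (rename e (map σ F))))) =
        (Matrix.of fun u v => eval (fun v => σ (Q v)) (pderiv u (pderiv v (map σ F)))).submatrix
          e.symm e.symm := by
      ext u v
      rw [Matrix.submatrix_apply, Matrix.of_apply, Matrix.of_apply, hpd, hpd, hev, hpt]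
    rw [h1, Matrix.rank_submatrix, ← Fintype.card_congr e]
    exact hr
  · rw [hev, hpt]
    exact hU
  · rw [hev, hev, hpt] at h1
    have h3 := hiso (fun v => x (e v)) h1 fun v => by
      have h4 := h2 (e v)
      rw [hpd, hev, Equiv.symm_apply_apply] at h4
      exact h4
    rcases h3 with h3 | h3
    · left
      funext w
      have h4 := congrFun h3 (e.symm w)
      rwa [Equiv.apply_symm_apply] at h4
    · right
      rw [hev]
      exact h3

end Pool.Agent.L0h21.CK
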