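import Pool.Agent.L0h21.CK.R1

/-! The formulas are good. -/

set_option autoImplicit false
set_option linter.unusedSectionVars false
set_option linter.unusedVariables false

namespace Pool.Agent.L0h21.CK

open MvPolynomial MeasureTheory
open Pool.Agent.W427.SMC (msZ bsZ mu isom_surj)
open Pool.Agent.Y230.PT (msK bsK inc inc_emb rr)
open Pool.Agent.Y230.PS (EP)
open Pool.Agent.N138.SU Pool.Agent.N138.SV Pool.Agent.N138.RF Pool.Agent.L0h21.RW
open Pool.Agent.L0h21.SN hiding bal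

attribute [local instance] msK bsK msZ bsZ

variable {p : ℕ} [Fact p.Prime]

theorem lq_leaf (σ : ℚ_[p] →+* ℂ) {V : Type} [Fintype V] (F : MvPolynomial V ℚ)
    (Q : V → ℚ_[p]) (h : GoodPoint (map (algebraMap ℚ ℂ) F) (fun v => σ (Q v)) ∨
      CorankTwoPoint (map (algebraMap ℚ ℂ) F) (fun v => σ (Q v))) :
    LQ σ (map (algebraMap ℚ ℚ_[p]) F) Q := by
  have hemb : σ.comp (algebraMap ℚ ℚ_[p]) = algebraMap ℚ ℂ := RingHom.ext_rat _ _
  rcases h with h | h
  · exact lq_good σ F Q h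
  · refine lq_ct hy σ _ Q ?_
    rw [map_map, hemb]
    exact h

/-- **The formulas are good.** -/
theorem lqa_fx (σ : ℚ_[p] →+* ℂ) {V : Type} {F : MvPolynomial V ℚ} (h : FX V F) :
    (∀ c, F ≠ C c) ∧ ∀ [Fintype V], LQA σ (map (algebraMap ℚ ℚ_[p]) F) := by
  have hnc : ∀ {V : Type} {F : MvPolynomial V ℚ}, (∀ c, F ≠ C c) → ∀ c,
      map (algebraMap ℚ ℚ_[p]) F ≠ C c := fun hF c => map_nc (algebraMap ℚ ℚ_[p]) _ hF c
  induction h with
  | @good V i1 F hF h =>
    refine ⟨hF, fun {inst} => ?_⟩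
    obtain rfl : inst = i1 := Subsingleton.elim _ _
    exact fun Q => lq_leaf σ F Q (h _)
  | curve f hf =>
    refine ⟨hf, fun {inst} => ?_⟩
    obtain rfl : inst = Fin.fintype 2 := Subsingleton.elim _ _
    exact lqa_curve hy3.r.g4 σ _ (hnc hf)
  | @wh τ i1 i2 G w D hG =>
    refine ⟨E2.nc_wh hG, fun {inst} => ?_⟩
    obtain rfl : inst = i1 := Subsingleton.elim _ _
    exact lqa_wh hy3.r σ G w D hG
  | add V W F G hF hG ihF ihG =>
    refine ⟨E2.nc_add ihF.1, fun {inst} => ?_⟩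
    obtain rfl : inst = _ := Subsingleton.elim inst (instFintypeSum V W)
    have h1 := lqa_add hy3.r.g1 σ _ _ ihF.2 ihG.2
    rw [map_add, map_rename, map_rename]
    exact h1
  | mul V W F G hF hG ihF ihG =>
    have hG0 : G ≠ 0 := fun h0 => ihG.1 0 (by rw [h0, map_zero])
    refine ⟨E2.nc_mul ihF.1 hG0, fun {inst} => ?_⟩
    obtain rfl : inst = _ := Subsingleton.elim inst (instFintypeSum V W)
    have h1 := lqa_mul hy3.r.g2 σ _ _ (hnc ihF.1) (hnc ihG.1) ihF.2 ihG.2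
    rw [map_mul, map_rename, map_rename]
    exact h1
  | comp V F P hP hF ihF =>
    refine ⟨E2.nc_comp hP ihF.1, fun {inst} => ?_⟩
    have h1 := lqa_comp hy3.r.g3 σ _ P hP (hnc ihF.1) ihF.2
    have h6 := Polynomial.hom_eval₂ P (algebraMap ℚ (MvPolynomial V ℚ))
      (MvPolynomial.map (algebraMap ℚ ℚ_[p])) F
    have h7 : (MvPolynomial.map (algebraMap ℚ ℚ_[p])).comp (algebraMap ℚ (MvPolynomial V ℚ)) =
        (algebraMap ℚ_[p] (MvPolynomial V ℚ_[p])).comp (algebraMap ℚ ℚ_[p]) :=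
      RingHom.ext_rat _ _
    rw [h7, ← Polynomial.eval₂_map] at h6
    have h8 : map (algebraMap ℚ ℚ_[p]) (Polynomial.aeval F P) =
      Polynomial.aeval (map (algebraMap ℚ ℚ_[p]) F) (P.map (algebraMap ℚ ℚ_[p])) := h6
    rw [h8]
    exact h1
  | drop V κ F hF ihF =>
    refine ⟨fun c h => ihF.1 c (by rw [h, rename_C]), fun {inst} => ?_⟩
    have h1 := @(ihF.2)
    refine lqa_drop (W := κ) σ _ ?_
    rw [← map_rename]
    exact h1
  | equiv V W i F hF ihF =>
    refine ⟨fun c h => ihF.1 c ?_, fun {inst} => ?_⟩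
    · have h1 := congrArg (rename i.symm) h
      rw [rename_rename, rename_C] at h1
      simpa using h1
    · have h1 := lqa_equiv hy3.r.r5 σ i _ ihF.2
      rw [map_rename]
      exact h1
  | @aut V i1 φ ψ h F hF ihF =>
    refine ⟨nc_aut φ ψ h ihF.1, fun {inst} => ?_⟩
    obtain rfl : inst = i1 := Subsingleton.elim _ _
    classical
    rw [map_aeval']
    refine lqa_aut σ (fun v => map (algebraMap ℚ ℚ_[p]) (φ v))
      (fun v => map (algebraMap ℚ ℚ_[p]) (ψ v)) (fun v => ?_) (fun v => ?_) _ ihF.2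
    · rw [← map_aeval', h.1, map_X]
    · rw [← map_aeval', h.2, map_X]

open Pool.Agent.W427.SMC Pool.Agent.Y230.PT Pool.Agent.Y230.PS Pool.Agent.Y230.TH Pool.Agent.R852.PP in
/-- the formulas -/
theorem XG_fx {V : Type} [Fintype V] (F : MvPolynomial V ℚ) (h : FX V F) : XG w2 p F := by
  obtain ⟨emb⟩ := exists_emb p
  obtain ⟨h2, h3⟩ := lqa_fx (p := p) emb h
  obtain ⟨K0, hK⟩ := gi_of_lqa emb _ h3 0
  have h4 := hK K0 le_rfl
  rw [sc_zero] at h4
  have h1 : XW w2 p F := G6.main hy3.d emb F K0 h4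
  exact ⟨fun h0 => h2 0 (by rw [h0, map_zero]), FR_of_XW (FK_nc _ h2) h1, h1⟩

open Pool.Agent.W427.SMC Pool.Agent.Y230.PT Pool.Agent.Y230.PS Pool.Agent.Y230.TH Pool.Agent.R852.PP in
/-- the polynomials all of whose zeros are good -/
theorem XG_zeros {V : Type} [Fintype V] (F : MvPolynomial V ℚ) (hnc : ∀ c, F ≠ C c)
    (h : ∀ P : V → ℂ, eval P (map (algebraMap ℚ ℂ) F) = 0 →
      GoodPoint (map (algebraMap ℚ ℂ) F) P ∨ CorankTwoPoint (map (algebraMap ℚ ℂ) F) P) :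
    XG w2 p F := by
  obtain ⟨emb⟩ := exists_emb p
  have hemb : emb.comp (algebraMap ℚ ℚ_[p]) = algebraMap ℚ ℂ := RingHom.ext_rat _ _
  have h4 : XW w2 p F := xw_zeros hy.gauss hy3.d emb _ fun P hP => by
    refine lq_leaf emb F _ (h _ ?_)
    have h5 := sig_eval emb (fun v => PadicInt.Coe.ringHom (p := p) (P v))
      (map (algebraMap ℚ ℚ_[p]) F)
    rw [hP, map_zero, map_map, hemb] at h5
    exact h5.symm
  exact ⟨fun h0 => hnc 0 (by rw [h0, map_zero]), FR_of_XW (FK_nc _ hnc) h4, h4⟩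

end Pool.Agent.L0h21.CK
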