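import Pool.Agent.L0h21.CK.Def

set_option autoImplicit false

/-! # Isolated singularities of corank at most two: statements of the modules

Project CK (helper21, MP_5d9b3c_ag): Denef's question, every prime, for all polynomials `F` all of
whose singularities on `F = 0` are isolated and of corank at most two.
Write `𝔪^k` for the polynomials or power series without terms of degree `< k` (`OrdP k`, `OrdS k`). -/

namespace Pool.Agent.L0h21.CK

open MvPolynomial MeasureTheory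

/-! ## Algebra -/

/-- Module `split` (the splitting lemma, truncated; about 150 lines).

Proof. Induction on `k`, for `k ≥ 3`: let `H = F ∘ φ - g - ∑ a_w z_w ^ 2 ∈ 𝔪^k`. Write
`H = H(x, 0) + ∑_w z_w b_w + H'`, with `b_w` homogeneous of degree `k - 1` and `H' ∈ 𝔪^(k + 1)`.
Substitute `z_w ↦ z_w - b_w / (2 a_w)` and replace `g` by `g + H(x, 0)`: the new
remainder is in `𝔪^(k + 1)`, because `a_w (b_w / 2 a_w) ^ 2 ∈ 𝔪^(2 k - 2)` and `H` changes by an element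
of `𝔪^(k - 1 + k - 1)`, and `2 k - 2 ≥ k + 1`. A composition of maps `v ↦ X v + 𝔪^2` is of this kind. -/
def S_split : Prop := ∀ (K : Type) [Field K] [CharZero K] (W : Type) [Fintype W]
  (a : W → K) (F : MvPolynomial (Fin 2 ⊕ W) K) (g0 : MvPolynomial (Fin 2) K), (∀ w, a w ≠ 0) →
  OrdP 3 (F - rename Sum.inl g0 - ∑ w, C (a w) * X (Sum.inr w) ^ 2) → ∀ k : ℕ,
  ∃ (φ : Fin 2 ⊕ W → MvPolynomial (Fin 2 ⊕ W) K) (g : MvPolynomial (Fin 2) K),
    (∀ v, OrdP 2 (φ v - X v)) ∧ coeff 0 g = coeff 0 g0 ∧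
    OrdP k (aeval φ F - rename Sum.inl g - ∑ w, C (a w) * X (Sum.inr w) ^ 2)

/-- Module `diag` (diagonalization of the Hessian; about 200 lines).

Proof. The quadratic form of the terms of degree two has rank at least `|W|`
(its polar matrix is the Hessian at the origin). Diagonalize it (Mathlib:
`QuadraticForm.equivalent_weightedSumSquares`, or `LinearMap.BilinForm.exists_orthogonal_basis`);
at least `|W|` of the `|W| + 2` coefficients are not zero; reorder the coordinates. -/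
def S_diag : Prop := ∀ (K : Type) [Field K] [CharZero K] (W : Type) [Fintype W] [DecidableEq W]
  (F : MvPolynomial (Fin 2 ⊕ W) K), coeff 0 F = 0 → (∀ v, eval 0 (pderiv v F) = 0) →
  Fintype.card W ≤ (Matrix.of fun u v => eval 0 (pderiv u (pderiv v F))).rank →
  ∃ (A B : Matrix (Fin 2 ⊕ W) (Fin 2 ⊕ W) K) (a : W → K) (g0 : MvPolynomial (Fin 2) K),
    A * B = 1 ∧ B * A = 1 ∧ (∀ w, a w ≠ 0) ∧ coeff 0 g0 = 0 ∧
    OrdP 3 (aeval (fun v => ∑ u, C (A v u) * X u) F - rename Sum.inl g0 -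
      ∑ w, C (a w) * X (Sum.inr w) ^ 2)

/-- Module `iso` (the origin is an isolated critical point: descent of the Nullstellensatz; about
100 lines).

Proof. `U X_v` vanishes at the critical points of `σ F`, so `(U X_v) ^ M = ∑_i a_i ∂_i (σ F)` with
`a_i ∈ ℂ[x]` (Nullstellensatz), the same `M` for all `v`. By linear algebra over `K`: let
`λ : ℂ → K` be `K`-linear (`ℂ` is a `K`-vector space via `σ`) with `λ(U(0) ^ M) ≠ 0`, and apply `λ` to the
coefficients: `u = λ(U ^ M)`, `u X_v ^ M = ∑_i λ(a_i) ∂_i F`. -/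
def S_iso : Prop := ∀ (K : Type) [Field K] (σ : K →+* ℂ) {V : Type} [Fintype V]
  (F : MvPolynomial V K) (U : MvPolynomial V ℂ), eval 0 U ≠ 0 →
  (∀ x : V → ℂ, (∀ v, eval x (pderiv v (map σ F)) = 0) → x = 0 ∨ eval x U = 0) →
  ∃ (u : MvPolynomial V K) (M : ℕ), eval 0 u ≠ 0 ∧
    ∀ v, u * X v ^ M ∈ Ideal.span (Set.range fun i => pderiv i F)

/-- Module `sard` (a polynomial has finitely many critical values; about 120 lines).

Proof. Let `𝔭` be a minimal prime over the Jacobian ideal `J`, `K = Frac (ℂ[x] / 𝔭)`. The class `f` of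
`F` in `K` is algebraic over `ℂ`: otherwise there is a derivation `D` of `K` over `ℂ` with
`D f ≠ 0` (characteristic zero: extend `d/dt` from `ℂ(t)`, `t = f`, to `K`: a transcendence basis and
an algebraic separable extension; or `Ω`), but `D f = ∑ ∂_i F D x_i = 0`. So `F - c ∈ 𝔭` for some
`c ∈ ℂ`. There are finitely many minimal primes, every critical point lies on one of them. -/
def S_sard : Prop := ∀ {V : Type} [Fintype V] (F : MvPolynomial V ℂ),
  {c : ℂ | ∃ x : V → ℂ, eval x F = c ∧ ∀ v, eval x (pderiv v F) = 0}.Finite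

/-- Module `m5` (about 30 lines): Nullstellensatz. -/
def S_m5 : Prop := ∀ {V : Type} [Fintype V] (G : MvPolynomial V ℂ),
  (∀ x : V → ℂ, eval x G = 0 → (∀ v, eval x (pderiv v G) = 0) → x = 0) →
  ∃ M : ℕ, ∀ v, (X v : MvPolynomial V ℂ) ^ M ∈
    Ideal.span (insert G (Set.range fun i => pderiv i G))

/-! ## Formal periods -/

/-- Module `f1` (from polynomials to power series; about 200 lines).

Proof. Let `I = (G, ∂_i G)`, `B = M |V| + 1`, `A = B + 1`. If a polynomial `h` is in `𝔪^(B + l)`, then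
`h = G a + ∑ ∂_i G a_i` with `a, a_i ∈ 𝔪^l` (every monomial of `h` is divisible by some `X_v ^ M`). By
induction on `m`: `c m` vanishes on `𝔪^(A (m + 1))`, for all `c ∈ S`: for `m = 0` by `e1`, `d1`; and
`c (m + 1) (G a) = (m - e) c m a`, `c (m + 1) (∂_i G a_i) = c m (∂_i a_i) - c' m a_i` (`e2`, `d2`). Let
`T N` be the truncation of power series (`MvPowerSeries.truncTotal N`, terms of degree `< N`). The set
`S'` of all the families `c' m h = ∑_k c_k m (T (A (m + 1)) (a_k h))` (finite sums, `c_k ∈ S`, `a_k`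
power series) is as required: `c_k m` may be applied to any polynomial which is congruent modulo
`𝔪^(A (m + 1))`; for `d2` use `a ∂_i h = ∂_i (a h) - (∂_i a) h` and truncations of higher order. -/
def S_f1 : Prop := ∀ {V : Type} [Fintype V] (G : MvPolynomial V ℂ) (e : ℂ) (M : ℕ),
  (∀ v, (X v : MvPolynomial V ℂ) ^ M ∈
    Ideal.span (insert G (Set.range fun i => pderiv i G))) →
  Pool.Agent.L0h21.RW.Per' G e → FP (G : MvPowerSeries V ℂ) e

/-- Module `f2a` (the bound; about 120 lines).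

Proof. Let `B = M |V| + 1`. If `h ∈ 𝔪^(B + l)` then `h = ∑ ∂_i (g + R) a_i` with `a_i ∈ 𝔪^l`, hence
`h = ∑ ∂_i g a_i + h'`, `h' = ∑ ∂_i R a_i ∈ 𝔪^(B + l + 1)` as `k ≥ B + 2`. Induction on `m`: let
`h ∈ 𝔪^((B + 1) (m + 1))`, put `l = (B + 1) m + 1`. `c m (∂_i g a_i) = 0`: by `d1` if `m = 0`, and
by `d2` and the induction hypothesis if `m > 0`. So `c m h = c m h'`; iterate until the order is
so large that `loc` applies. -/
def S_f2a : Prop := ∀ {V : Type} [Fintype V] (g R : MvPowerSeries V ℂ) (e : ℂ)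
  (S : Set (ℕ → MvPowerSeries V ℂ →ₗ[ℂ] ℂ)) (M k : ℕ), IsFP g e S →
  (∀ v, (MvPowerSeries.X v : MvPowerSeries V ℂ) ^ M ∈
    Ideal.span (Set.range fun i => MvPowerSeries.pderiv ℂ i (g + R))) →
  OrdS k R → M * Fintype.card V + 3 ≤ k →
  ∀ c ∈ S, ∀ (m : ℕ) h, OrdS ((M * Fintype.card V + 2) * (m + 1)) h → c m h = 0

/-- Module `f2b` (perturbations; about 150 lines; compare `Pool/Agent/L0h47/RW/TT.lean`).

Proof. For `c ∈ S` let `ĉ m h = ∑_{j < N} ((-1) ^ j / j!) c (m + j) (R ^ j h)`, where `N = m + 1`; the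
terms with `j ≥ m + 1` vanish, since `k j ≥ 2 A j ≥ A (m + j + 1)`, so any `N ≥ m + 1` gives the same.
Let `S'` be the set of the `ĉ`, `F = g + R`.
* `e2`: `ĉ (m + 1) (F h) = (m - e) ĉ m h`: see `Pool/Agent/L0h21/RW/PerDef2.lean`.
* `d2`: `ĉ m (∂_i h) - ĉ (m + 1) (∂_i F h) = (c')^ m h`, as `R^j ∂h = ∂(R^j h) - j R^(j-1) ∂R h`.
* `mu`, `add`: clear. `loc`: `A`.
* `e1`: `ĉ 0 (F h)` is a combination of `c 0 (g h) = 0`, `c j (g R ^ j h) = (j - 1 - e) c (j - 1) (R ^ j h)`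
  for `j ≥ 1`, and `c j (R ^ (j + 1) h)`; these vanish: the orders are `≥ k j ≥ A j`, `≥ A (j + 1)`.
* `d1`: `c 0 (∂g h) = 0`, `c 0 (∂R h) = 0` (`k - 1 ≥ A`), `c j (∂g R ^ j h)` is
  `c (j - 1) (∂(R ^ j h)) - c' (j - 1) (R ^ j h)`, of order `≥ k j - 1 ≥ A j`, and `c j (∂R R ^ j h) = 0`.
* `ĉ 0 1 = c 0 1`: `c j (R ^ j) = 0` for `j ≥ 1`, as `k j ≥ 2 A j ≥ A (j + 1)`. -/
def S_f2b : Prop := ∀ {V : Type} (g R : MvPowerSeries V ℂ) (e : ℂ)
  (S : Set (ℕ → MvPowerSeries V ℂ →ₗ[ℂ] ℂ)) (A k : ℕ), IsFP g e S →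
  (∀ c ∈ S, ∀ (m : ℕ) h, OrdS (A * (m + 1)) h → c m h = 0) → 1 ≤ A → OrdS k R → 2 * A + 1 ≤ k →
  (∃ c ∈ S, c 0 1 ≠ 0) → FP (g + R) e

/-- Module `f3` (formal changes of coordinates; about 100 lines).

Proof. `D = (∂_j φ_l)` is an invertible matrix of power series (`D ≡ 1` modulo `𝔪`); let `b` be its
inverse, so that `(∂_i h) ∘ φ = ∑_j b_ij ∂_j (h ∘ φ)` for suitable indices, by the chain rule
(`Pool/Agent/Y229/PS/Chain.lean`, `chain`, for `Fin n`; copy it for `V`, or transport). Let `S'` be the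
set of the families `c' m h = c m (h ∘ φ)`, `c ∈ S`. `d2`:
`c m ((∂_i h) ∘ φ) - c (m + 1) ((∂_i g) ∘ φ · h ∘ φ) = ∑_j (c b_ij) m (∂_j h̃) - (c b_ij) (m + 1) (∂_j g̃ h̃)`,
`h̃ = h ∘ φ`, `g̃ = g ∘ φ`, where `c b m u = c m (b u)` is in `S` (`mu`); so this is in `S'` by `d2` for `S`
and `add` (if `V` is empty the sum is zero: `0 = 0 · c ∈ S` by `mu`). -/
def S_f3 : Prop := ∀ {V : Type} [Fintype V] (g : MvPowerSeries V ℂ) (e : ℂ)
  (φ : V → MvPowerSeries V ℂ), (∀ v, OrdS 2 (φ v - MvPowerSeries.X v)) →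
  FP (MvPowerSeries.subst φ g) e → FP g e

/-- Module `jac` (the Jacobian ideal and formal changes of coordinates; about 100 lines).

Proof. Apply `φ` to `X_v ^ M ∈ J(F)`: `φ_v ^ M ∈ J(F ∘ φ)`, since `(∂_i F) ∘ φ = ∑_j b_ij ∂_j (F ∘ φ)`
(as in `f3`). `φ_v = ∑_u C_vu X_u` with a matrix `C ≡ 1` modulo `𝔪`, so it is invertible, and
`X_u = ∑_v (C⁻¹)_uv φ_v`; hence `X_u ^ (M |V|)` is in the ideal of the `φ_v ^ M` (pigeonhole; for
`M = 0` the ideal is everything). -/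
def S_jac : Prop := ∀ {V : Type} [Fintype V] (F : MvPowerSeries V ℂ) (M : ℕ)
  (φ : V → MvPowerSeries V ℂ), (∀ v, OrdS 2 (φ v - MvPowerSeries.X v)) →
  (∀ v, (MvPowerSeries.X v : MvPowerSeries V ℂ) ^ M ∈
    Ideal.span (Set.range fun i => MvPowerSeries.pderiv ℂ i F)) →
  ∀ v, (MvPowerSeries.X v : MvPowerSeries V ℂ) ^ (M * Fintype.card V) ∈
    Ideal.span (Set.range fun i => MvPowerSeries.pderiv ℂ i (MvPowerSeries.subst φ F))

/-! ## Distributions -/

section padic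

/-- Lower bound for the gradient near the origin. -/
def GB {p : ℕ} [Fact p.Prime] {V : Type} (F : MvPolynomial V ℚ_[p]) (M : ℕ) : Prop :=
  ∃ c k0 : ℕ, ∀ x : V → ℤ_[p], (∀ i, ‖x i‖ ≤ ((p : ℝ)⁻¹) ^ k0) → ∀ v, ∃ i,
    ((p : ℝ)⁻¹) ^ c * ‖x v‖ ^ M ≤ ‖eval (fun j => (x j : ℚ_[p])) (pderiv i F)‖

/-- Module `grad` (about 60 lines).

Proof. `u X_v ^ M = ∑_i a_i ∂_i F`, `|u(x)| = |u(0)| ≠ 0` for small `x`, `|a_i(x)| ≤ p ^ c'`. -/
def S_grad : Prop := ∀ (p : ℕ) [Fact p.Prime] {V : Type} [Fintype V]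
  (F u : MvPolynomial V ℚ_[p]) (M : ℕ), eval 0 u ≠ 0 →
  (∀ v, u * X v ^ M ∈ Ideal.span (Set.range fun i => pderiv i F)) → GB F M

/-- Module `gradphi` (about 120 lines).

Proof. For small `x`: `|φ_v(x) - x_v| < max |x|`, so `max_v |φ_v(x)| = max_v |x_v|`; the matrix
`(∂_j φ_l)(x)` is `≡ 1` modulo `p`, so it is in `GL(ℤ_p)`, and by the chain rule
(`∂_j (F ∘ φ) = ∑_l (∂_l F) ∘ φ ∂_j φ_l`, `Pool/Agent/L0h21/RW/P14.lean`, `chain_rule`)
`max_i |∂_i F (φ(x))| = max_j |∂_j (F ∘ φ) (x)|`. -/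
def S_gradphi : Prop := ∀ (p : ℕ) [Fact p.Prime] {V : Type} [Fintype V]
  (F : MvPolynomial V ℚ_[p]) (M : ℕ) (φ : V → MvPolynomial V ℚ_[p]),
  (∀ v, OrdP 2 (φ v - X v)) → GB F M → GB (aeval φ F) M

end padic

/-- Module `pert` (generic perturbation; about 150 lines).

Proof. Let `K > max k (deg g)`, `K ≥ 2`, `g' = g + λ x ^ K + μ y ^ K`, with `λ`, `μ ∈ ℚ_p` algebraically
independent over the field `k₀` generated by the coefficients of `g` (`ℚ_p` is uncountable and `k₀` is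
countable: first `λ` transcendental over `k₀`, then `μ` transcendental over `k₀(λ)`). Let
`(a, b) ≠ 0` be a point of `ℂ ^ 2` with `g' = ∂_x g' = ∂_y g' = 0`. If `a ≠ 0`, `b ≠ 0`, then
`λ = - ∂_x g(a, b) / (K a ^ (K - 1))`, `μ = - ∂_y g (a, b) / (K b ^ (K - 1))` and
`K g(a, b) = a ∂_x g(a, b) + b ∂_y g(a, b)`; the polynomial `K g - x ∂_x g - y ∂_y g` is not zero if
`g ≠ 0` (`K > deg g`), so `k₀(a, b)` has transcendence degree `≤ 1` over `k₀`, but it contains `λ` and `μ`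
(for `g = 0` we get `λ a ^ (K - 1) = 0`). If `a = 0`, `b ≠ 0`: `g(0, b) + μ b ^ K = 0 =
∂_y g(0, b) + K μ b ^ (K - 1)`, so `K g(0, b) = b ∂_y g(0, b)`, hence `b` is algebraic over `k₀` if
`g(0, y) ≠ 0`, and so is `μ`; if `g(0, y) = 0` then `μ b ^ K = 0`. The same for `b = 0`.
(Any other choice of `g'` is fine, also any other proof of Bertini's theorem in this case.) -/
def S_pert : Prop := ∀ (p : ℕ) [Fact p.Prime] (σ : ℚ_[p] →+* ℂ)
  (g : MvPolynomial (Fin 2) ℚ_[p]) (k : ℕ), coeff 0 g = 0 →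
  ∃ g' : MvPolynomial (Fin 2) ℚ_[p], OrdP k (g' - g) ∧ (∀ c, g' ≠ C c) ∧ coeff 0 g' = 0 ∧
    ∀ x : Fin 2 → ℂ, eval x (map σ g') = 0 → (∀ i, eval x (pderiv i (map σ g')) = 0) → x = 0

end Pool.Agent.L0h21.CK
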